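import Pool.Agent.Lib.MP_1ebeae_al.HNN

/-!
Reduced words in the HNN extension and a rigid equation.
-/

namespace Pool.Agent.Lib.MP_1ebeae_al

open HNNExtension HNNExtension.NormalWord

theorem norm_two_zpow (k : ℤ) : padicNorm 3 ((2 : ℚ) ^ k) = 1 := by
  have : Fact (Nat.Prime 3) := ⟨Nat.prime_three⟩
  have h : padicNorm 3 (2 : ℚ) = 1 := by
    have := padicNorm.padicNorm_of_prime_of_ne (p := 3) (q := 2) (by norm_num)
    exact_mod_cast this
  have h2 := map_zpow₀ (IsAbsoluteValue.toAbsoluteValue (padicNorm 3)) (2 : ℚ) k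
  change padicNorm 3 ((2 : ℚ) ^ k) = padicNorm 3 (2 : ℚ) ^ k at h2
  rw [h2, h, one_zpow]

/-- The elements of the base whose first coordinate is `3`-integral. -/
def B0 : Subgroup BS where
  carrier := {β | padicNorm 3 β.u ≤ 1}
  one_mem' := by simp
  mul_mem' := by
    intro x y hx hy
    have : Fact (Nat.Prime 3) := ⟨Nat.prime_three⟩
    change padicNorm 3 (x.u + 2 ^ x.k * y.u) ≤ 1
    refine padicNorm.nonarchimedean.trans (max_le hx ?_)
    rwa [padicNorm.mul, norm_two_zpow, one_mul]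
  inv_mem' := by
    intro x hx
    have : Fact (Nat.Prime 3) := ⟨Nat.prime_three⟩
    change padicNorm 3 (-(2 ^ (-x.k) * x.u)) ≤ 1
    rwa [padicNorm.neg, padicNorm.mul, norm_two_zpow, one_mul]

theorem int_mem_B0 (m k : ℤ) : (⟨m, k⟩ : BS) ∈ B0 :=
  have : Fact (Nat.Prime 3) := ⟨Nat.prime_three⟩
  padicNorm.of_int m

theorem zero_mem_B0 (k : ℤ) : (⟨0, k⟩ : BS) ∈ B0 := by simpa using int_mem_B0 0 k

theorem three_mul_ne {β : BS} (h : β ∈ B0) : 3 * β.u ≠ 2 ^ β.k := by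
  have : Fact (Nat.Prime 3) := ⟨Nat.prime_three⟩
  intro e
  have h1 := congrArg (padicNorm 3) e
  have h2 : padicNorm 3 (3 : ℚ) = 3⁻¹ := by
    exact_mod_cast padicNorm.padicNorm_p (p := 3) (by norm_num)
  have h3 : padicNorm 3 β.u ≤ 1 := h
  rw [padicNorm.mul, norm_two_zpow, h2] at h1
  linarith

/-- The element `a b ^ 2`. -/
def dd : BS := ⟨1, 2⟩

theorem not_mem_of {γ : BS} (h1 : γ.k ≠ 0) (h2 : γ.u ≠ 0) (ε : ℤˣ) :
    γ ∉ toSubgroup BS.ha.range BS.hb.range ε := by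
  rcases Int.units_eq_one_or ε with rfl | rfl
  · rw [toSubgroup_one, BS.mem_ha]
    exact fun h => h1 h.1
  · rwa [toSubgroup_neg_one, BS.mem_hb]

theorem conj_sq_not_mem {β : BS} (h : β ∈ B0) (ε : ℤˣ) :
    β * (dd * dd) * β⁻¹ ∉ toSubgroup BS.ha.range BS.hb.range ε := by
  refine not_mem_of (by simp [dd]) (fun e => three_mul_ne h ?_) ε
  simp only [BS.mul_u, BS.mul_k, BS.inv_u, dd] at e
  have h0 : (2 : ℚ) ^ β.k ≠ 0 := by positivity
  rw [zpow_add₀ two_ne_zero, zpow_neg] at e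
  norm_num at e
  field_simp at e
  linarith

theorem conj_inv_not_mem {β : BS} (h : β ∈ B0) (ε : ℤˣ) :
    β * dd⁻¹ * β⁻¹ ∉ toSubgroup BS.ha.range BS.hb.range ε := by
  refine not_mem_of (by simp [dd]) (fun e => three_mul_ne h ?_) ε
  simp only [BS.mul_u, BS.mul_k, BS.inv_u, BS.inv_k, dd] at e
  have h0 : (2 : ℚ) ^ β.k ≠ 0 := by positivity
  rw [zpow_add₀ two_ne_zero, zpow_neg (2 : ℚ) β.k] at e
  norm_num at e
  field_simp at e
  linarith

/-- The product of a list of letters. -/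
noncomputable def pr (l : List (ℤˣ × BS)) : HH :=
  (l.map fun x => (t ^ (x.1 : ℤ) * of x.2 : HH)).prod

theorem pr_cons (p : ℤˣ × BS) (l : List (ℤˣ × BS)) :
    pr (p :: l) = t ^ (p.1 : ℤ) * of p.2 * pr l := by simp [pr]

/-- Reduced lists. -/
def Ch (l : List (ℤˣ × BS)) : Prop :=
  l.IsChain fun a b => a.2 ∈ toSubgroup BS.ha.range BS.hb.range a.1 → a.1 = b.1

/-- `g` has a reduced form with signs `s` and letters in `B0`. -/
def Rd (g : HH) (s : List ℤˣ) : Prop :=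
  ∃ (α : BS) (l : List (ℤˣ × BS)), α ∈ B0 ∧ (∀ p ∈ l, p.2 ∈ B0) ∧ Ch l ∧ l.map Prod.fst = s ∧
    g = of α * pr l

theorem rd_one : Rd 1 [] := ⟨1, [], one_mem _, by simp, List.isChain_nil, rfl, by simp [pr]⟩

theorem Rd.base {g : HH} {s : List ℤˣ} (h : Rd g s) {β : BS} (hβ : β ∈ B0) :
    Rd (of β * g) s := by
  obtain ⟨α, l, h1, h2, h3, h4, rfl⟩ := h
  exact ⟨β * α, l, mul_mem hβ h1, h2, h3, h4, by rw [map_mul, mul_assoc]⟩

theorem pinch (ε : ℤˣ) {α : BS} (h : α ∈ toSubgroup BS.ha.range BS.hb.range ε) :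
    ∃ γ ∈ B0, (t ^ (ε : ℤ) * of α * t ^ ((-ε : ℤˣ) : ℤ) : HH) = of γ := by
  rcases Int.units_eq_one_or ε with rfl | rfl
  · rw [toSubgroup_one, BS.mem_ha] at h
    obtain ⟨h1, m, h2⟩ := h
    obtain rfl : α = ⟨m, 0⟩ := BS.ext h2 h1
    exact ⟨_, zero_mem_B0 m, by simpa using t_conj m⟩
  · rw [toSubgroup_neg_one, BS.mem_hb] at h
    obtain ⟨u, m⟩ := α
    obtain rfl : u = 0 := h
    refine ⟨_, int_mem_B0 m 0, ?_⟩
    rw [← t_conj m]
    simp [mul_assoc]

theorem Rd.step {g : HH} {s : List ℤˣ} (h : Rd g s) (ε : ℤˣ) :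
    ∃ s', Rd (t ^ (ε : ℤ) * g) s' ∧ (s' = ε :: s ∨ s = -ε :: s') := by
  obtain ⟨α, l, h1, h2, h3, rfl, rfl⟩ := h
  have key : Ch ((ε, α) :: l) → ∃ s', Rd (t ^ (ε : ℤ) * (of α * pr l)) s' ∧
      (s' = ε :: l.map Prod.fst ∨ l.map Prod.fst = -ε :: s') := fun hc =>
    ⟨_, ⟨1, (ε, α) :: l, one_mem _, List.forall_mem_cons.2 ⟨h1, h2⟩, hc, rfl, by
      rw [pr_cons, map_one, one_mul, mul_assoc]⟩, .inl rfl⟩
  cases l with
  | nil => exact key (List.isChain_singleton _)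
  | cons p l =>
    by_cases hp : α ∈ toSubgroup BS.ha.range BS.hb.range ε → ε = p.1
    · exact key (List.isChain_cons_cons.2 ⟨hp, h3⟩)
    · push Not at hp
      have he : p.1 = -ε := by
        rcases Int.units_eq_one_or ε with e | e <;> rcases Int.units_eq_one_or p.1 with e' | e' <;>
          simp_all
      obtain ⟨γ, hγ, e⟩ := pinch ε hp.1
      rw [List.forall_mem_cons] at h2
      refine ⟨_, ⟨γ * p.2, l, mul_mem hγ h2.1, h2.2, List.IsChain.tail h3, rfl, ?_⟩,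
        .inr (by rw [List.map_cons, he])⟩
      rw [pr_cons, he, map_mul, ← e]
      simp only [mul_assoc]

theorem Rd.uniq {g : HH} {s : List ℤˣ} (h : Rd g s) {α : BS} {l : List (ℤˣ × BS)} (hl : Ch l)
    (e : g = of α * pr l) : l.map Prod.fst = s := by
  obtain ⟨α', l', -, -, h3, rfl, e'⟩ := h
  exact (ReducedWord.map_fst_eq_and_of_prod_eq BS.phi (w₁ := ⟨α, l, hl⟩) (w₂ := ⟨α', l', h3⟩)
    (e.symm.trans e')).1

/-- The subgroup generated by `B0` and the stable letter. -/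
noncomputable def G0 : Subgroup HH := Subgroup.closure ({g | ∃ β ∈ B0, g = of β} ∪ {t})

theorem of_mem_G0 {β : BS} (h : β ∈ B0) : (of β : HH) ∈ G0 :=
  Subgroup.subset_closure (.inl ⟨β, h, rfl⟩)

theorem t_mem_G0 : (t : HH) ∈ G0 := Subgroup.subset_closure (.inr rfl)

theorem exists_rd {g : HH} (h : g ∈ G0) : ∃ s, Rd g s := by
  induction h using Subgroup.closure_induction_left with
  | one => exact ⟨_, rd_one⟩
  | mul_left x hx y _ ih =>
    obtain ⟨s, hs⟩ := ih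
    rcases hx with ⟨β, hβ, rfl⟩ | rfl
    · exact ⟨s, hs.base hβ⟩
    · obtain ⟨s', h', -⟩ := hs.step 1
      exact ⟨s', by simpa using h'⟩
  | inv_mul_cancel x hx y _ ih =>
    obtain ⟨s, hs⟩ := ih
    rcases hx with ⟨β, hβ, rfl⟩ | rfl
    · exact ⟨s, by simpa using hs.base (inv_mem hβ)⟩
    · obtain ⟨s', h', -⟩ := hs.step (-1)
      exact ⟨s', by simpa using h'⟩

/-- The sum of a list of signs. -/
def hs (s : List ℤˣ) : ℤ := (s.map fun ε => (ε : ℤ)).sum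

theorem hs_cons (ε : ℤˣ) (s : List ℤˣ) : hs (ε :: s) = ε + hs s := by simp [hs]

theorem hs_append (s s' : List ℤˣ) : hs (s ++ s') = hs s + hs s' := by simp [hs]

/-- `g` has a reduced form of height `h` all of whose nonempty ends have positive height. -/
def Qh (h : ℤ) (g : HH) : Prop :=
  ∃ s, Rd g s ∧ hs s = h ∧ ∀ u, u <:+ s → u ≠ [] → 1 ≤ hs u

theorem qh_one : Qh 0 1 := ⟨[], rd_one, rfl, fun _ h h' => absurd (List.suffix_nil.1 h) h'⟩

theorem Qh.base {h : ℤ} {g : HH} (H : Qh h g) {β : BS} (hβ : β ∈ B0) : Qh h (of β * g) :=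
  let ⟨s, h1, h2⟩ := H
  ⟨s, h1.base hβ, h2⟩

theorem Qh.step {h : ℤ} {g : HH} (H : Qh h g) (ε : ℤˣ) (hε : 1 ≤ h + ε) :
    Qh (h + ε) (t ^ (ε : ℤ) * g) := by
  obtain ⟨s, h1, rfl, h3⟩ := H
  obtain ⟨s', h4, rfl | rfl⟩ := h1.step ε
  · refine ⟨_, h4, by rw [hs_cons, add_comm], fun u hu hn => ?_⟩
    rcases List.suffix_cons_iff.1 hu with rfl | hu
    · rw [hs_cons]
      omega
    · exact h3 u hu hn
  · exact ⟨_, h4, by rw [hs_cons]; simp, fun u hu hn => h3 u (hu.trans (List.suffix_cons _ _)) hn⟩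

theorem Qh.up {h : ℤ} {g : HH} (H : Qh h g) (hh : 0 ≤ h) : Qh (h + 1) (t * g) := by
  simpa using H.step 1 (by simp; omega)

theorem Qh.down {h : ℤ} {g : HH} (H : Qh h g) (hh : 2 ≤ h) : Qh (h - 1) (t⁻¹ * g) := by
  simpa [sub_eq_add_neg] using H.step (-1) (by simp; omega)

/-- Reduced words that begin and end with a power of the stable letter. -/
inductive Core : ℤˣ → List ℤˣ → ℤˣ → HH → Prop
  | one (ε : ℤˣ) : Core ε [ε] ε (t ^ (ε : ℤ))
  | glue {ε₁ ε₂ ε₃ ε₄ : ℤˣ} {s s' : List ℤˣ} {M M' : HH} (γ : BS) : Core ε₁ s ε₂ M →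
      Core ε₃ s' ε₄ M' → (γ ∈ toSubgroup BS.ha.range BS.hb.range ε₂ → ε₂ = ε₃) →
      Core ε₁ (s ++ s') ε₄ (M * of γ * M')

theorem Core.ne_nil {ε ε' : ℤˣ} {s : List ℤˣ} {M : HH} (h : Core ε s ε' M) : s ≠ [] := by
  induction h with
  | one => simp
  | glue _ _ _ _ ih _ => simp [ih]

theorem Core.inv {ε ε' : ℤˣ} {s : List ℤˣ} {M : HH} (h : Core ε s ε' M) :
    ∃ s', hs s' = -hs s ∧ Core (-ε') s' (-ε) M⁻¹ := by
  induction h with
  | one ε => exact ⟨[-ε], by simp [hs], by simpa using Core.one (-ε)⟩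
  | @glue ε₁ ε₂ ε₃ ε₄ s s' M M' γ _ _ hγ ih ih' =>
    obtain ⟨u, h1, h2⟩ := ih
    obtain ⟨u', h3, h4⟩ := ih'
    refine ⟨u' ++ u, by rw [hs_append, hs_append]; omega, ?_⟩
    have := Core.glue γ⁻¹ h4 h2 fun h => by
      rw [inv_mem_iff] at h
      rcases Int.units_eq_one_or ε₂ with e | e <;> rcases Int.units_eq_one_or ε₃ with e' | e' <;>
        simp_all
    simpa [mul_assoc] using this

theorem Core.toList {ε ε' : ℤˣ} {s : List ℤˣ} {M : HH} (h : Core ε s ε' M) :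
    ∀ (γ : BS) (l : List (ℤˣ × BS)), Ch ((ε', γ) :: l) → ∃ β r, Ch ((ε, β) :: r) ∧
      ε :: r.map Prod.fst = s ++ l.map Prod.fst ∧ pr ((ε, β) :: r) = M * of γ * pr l := by
  induction h with
  | one ε => exact fun γ l h => ⟨γ, l, h, rfl, pr_cons _ _⟩
  | glue γ _ _ hγ ih ih' =>
    intro γ' l h
    obtain ⟨β, r, h1, h2, h3⟩ := ih' γ' l h
    obtain ⟨β', r', h4, h5, h6⟩ := ih γ (_ :: r) (List.isChain_cons_cons.2 ⟨hγ, h1⟩)
    refine ⟨β', r', h4, by rw [h5, List.map_cons, h2, List.append_assoc], ?_⟩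
    rw [h6, h3]
    simp only [mul_assoc]

theorem exists_core (l : List (ℤˣ × BS)) : ∀ p : ℤˣ × BS, Ch (p :: l) →
    (∀ q ∈ p :: l, q.2 ∈ B0) → ∃ s ε M, ∃ ω ∈ B0, Core p.1 s ε M ∧ pr (p :: l) = M * of ω := by
  induction l with
  | nil => exact fun p _ h => ⟨_, _, _, p.2, h p (by simp), .one p.1, by simp [pr]⟩
  | cons q l ih =>
    intro p h hB
    rw [Ch, List.isChain_cons_cons] at h
    obtain ⟨s, ε, M, ω, h1, h2, h3⟩ := ih q h.2 fun r hr => hB r (List.mem_cons_of_mem _ hr)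
    exact ⟨_, _, _, ω, h1, .glue p.2 (.one p.1) h2 h.1, by rw [pr_cons, h3, ← mul_assoc]⟩

/-- The commutator of `c d⁻¹` and `d c d⁻¹ d⁻¹` for `c = y d y⁻¹`. -/
def tp {Γ : Type} [Group Γ] (y d : Γ) : Γ :=
  y * (d * d) * y⁻¹ * d⁻¹ * (y * d⁻¹ * y⁻¹) * (d * d) * (y * d⁻¹ * y⁻¹) * d⁻¹

theorem tp_base (β : BS) : tp (of β : HH) (of dd) = 1 := by
  have : tp β dd = 1 := by
    have h0 : (2 : ℚ) ^ β.k ≠ 0 := by positivity
    ext
    · simp only [tp, BS.mul_u, BS.mul_k, BS.inv_u, BS.inv_k, dd, BS.one_u,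
        zpow_add₀ (two_ne_zero (α := ℚ)), zpow_neg]
      field_simp
      ring
    · simp [tp, dd]
  have h2 := congrArg (of : BS →* HH) this
  simpa only [tp, map_mul, map_inv, map_one] using h2

/-- The rigid equation: its value is never a word that stays below its two ends. -/
theorem rigid {y g : HH} (hy : y ∈ G0) (hg : Qh 1 g) (e : tp y (of dd) = t⁻¹ * g) :
    ∃ β ∈ B0, y = of β := by
  obtain ⟨_, α, l, h1, h2, h3, -, rfl⟩ := exists_rd hy
  cases l with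
  | nil => exact ⟨α, h1, by simp [pr]⟩
  | cons p l =>
    exfalso
    obtain ⟨s, ε, M, ω, h4, hM, h5⟩ := exists_core l p h3 h2
    obtain ⟨s', h6, hM'⟩ := hM.inv
    have h1' := inv_mem h1
    have c1 := Core.glue _ hM hM' fun h => absurd h (conj_sq_not_mem h4 _)
    have c2 := Core.glue _ hM hM' fun h => absurd h (conj_inv_not_mem h4 _)
    have c3 := Core.glue _ c2 c2 fun h => absurd h (conj_sq_not_mem h1' _)
    have c4 := Core.glue _ c1 c3 fun h => absurd h (conj_inv_not_mem h1' _)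
    obtain ⟨β, r, h7, h8, h9⟩ := c4.toList (α⁻¹ * dd⁻¹) [] (List.isChain_singleton _)
    obtain ⟨u, h10, -, h11⟩ := hg
    obtain ⟨u', h12, h13⟩ := h10.step (-1)
    have h14 := h12.uniq (α := α) h7 (by
      rw [h9, show (t ^ (((-1 : ℤˣ) : ℤ)) : HH) = t⁻¹ by simp, ← e, h5]
      simp only [tp, pr, map_mul, map_inv, List.map_nil, List.prod_nil]
      group)
    rw [List.map_cons, h8, List.map_nil, List.append_nil] at h14
    have h15 : (s ++ s') ++ (s ++ s') <:+ u := by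
      rcases h13 with rfl | rfl
      · obtain ⟨a, w, hw⟩ := List.exists_cons_of_ne_nil c1.ne_nil
        rw [hw, List.cons_append] at h14
        rw [hw, ← (List.cons.inj h14).2]
        exact List.suffix_append _ _
      · rw [← h14]
        exact (List.suffix_append _ _).trans (List.suffix_cons _ _)
    have := h11 _ h15 c3.ne_nil
    simp only [hs_append] at this
    omega

end Pool.Agent.Lib.MP_1ebeae_al
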