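import Pool.Agent.Lib.MP_1ebeae_al.Wreath
import Pool.Agent.Lib.MP_1ebeae_al.BGRed

/-!
The maps that kill the conjugates `t ^ i a t ^ (-i)` with `i ≤ l`, and one equation for a system.
-/

namespace Pool.Agent.Lib.MP_1ebeae_al

open HNNExtension

/-- Truncation on the base group. -/
def rb (l : ℤ) (β : BS) : BS := if l < 0 then β else if l = 0 then ⟨0, β.k⟩ else 1

theorem rb_mul (l : ℤ) (β γ : BS) : rb l (β * γ) = rb l β * rb l γ := by
  unfold rb
  split_ifs
  · rfl
  · ext <;> simp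
  · simp

theorem rb_rb {l l' : ℤ} (h : l ≤ l') (β : BS) : rb l' (rb l β) = rb l' β := by
  unfold rb
  split_ifs <;> first | rfl | omega

theorem rb_mem (l : ℤ) {β : BS} (h : β ∈ B0) : rb l β ∈ B0 := by
  unfold rb
  split_ifs
  exacts [h, zero_mem_B0 _, one_mem _]

/-- All truncations at once. -/
noncomputable def Phi : HH →* Wr HH :=
  HNNExtension.lift
    (MonoidHom.mk' (fun β => (⟨fun l => of (rb l β), 0⟩ : Wr HH)) fun β γ => by
      ext l
      · simp [rb_mul]
      · simp)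
    ⟨fun _ => t, 1⟩ (by
      rintro ⟨_, n, rfl⟩
      rw [BS.phi_apply]
      ext l
      · change t * of (rb (l - 1) ⟨n.toAdd, 0⟩) = of (rb l ⟨0, n.toAdd⟩) * t
        by_cases h : l ≤ 0
        · have h1 : rb (l - 1) ⟨n.toAdd, 0⟩ = ⟨n.toAdd, 0⟩ := if_pos (by omega)
          have h2 : rb l ⟨0, n.toAdd⟩ = ⟨0, n.toAdd⟩ := by
            unfold rb
            split_ifs <;> first | rfl | omega
          rw [h1, h2, ← t_conj, inv_mul_cancel_right]
        · have h1 : rb (l - 1) ⟨n.toAdd, 0⟩ = 1 := by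
            unfold rb
            split_ifs <;> first | rfl | omega
          have h2 : rb l ⟨0, n.toAdd⟩ = 1 := by
            unfold rb
            split_ifs <;> first | rfl | omega
          rw [h1, h2, map_one, mul_one, one_mul]
      · rfl)

/-- The truncation at level `l`. -/
noncomputable def rho (l : ℤ) (g : HH) : HH := (Phi g).f l

/-- The exponent sum of the stable letter. -/
noncomputable def kap (g : HH) : ℤ := (Phi g).k

@[simp] theorem rho_mul (l : ℤ) (g h : HH) : rho l (g * h) = rho l g * rho (l - kap g) h := by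
  simp [rho, kap]
@[simp] theorem rho_inv (l : ℤ) (g : HH) : rho l g⁻¹ = (rho (l + kap g) g)⁻¹ := by
  simp [rho, kap]
@[simp] theorem rho_one (l : ℤ) : rho l 1 = 1 := by simp [rho]
@[simp] theorem rho_t (l : ℤ) : rho l t = t := by simp [rho, Phi]
@[simp] theorem rho_of (l : ℤ) (β : BS) : rho l (of β) = of (rb l β) := by simp [rho, Phi]
@[simp] theorem kap_mul (g h : HH) : kap (g * h) = kap g + kap h := by simp [kap]
@[simp] theorem kap_inv (g : HH) : kap g⁻¹ = -kap g := by simp [kap]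
@[simp] theorem kap_t : kap t = 1 := by simp [kap, Phi]
@[simp] theorem kap_of (β : BS) : kap (of β) = 0 := by simp [kap, Phi]

theorem rho_of_neg {l : ℤ} (h : l < 0) (β : BS) : rho l (of β) = of β := by
  rw [rho_of, rb, if_pos h]

theorem rho_a {l : ℤ} (h : 0 ≤ l) : rho l (of ⟨1, 0⟩) = 1 := by
  have : rb l ⟨1, 0⟩ = 1 := by
    unfold rb
    split_ifs <;> first | rfl | omega
  rw [rho_of, this, map_one]

theorem kap_rho (g : HH) : ∀ l, kap (rho l g) = kap g := by
  induction g using HNNExtension.induction_on with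
  | of β => simp
  | t => simp
  | mul x y hx hy => simp [hx, hy]
  | inv x hx => simp [hx]

theorem rho_rho (g : HH) : ∀ l l', l ≤ l' → rho l' (rho l g) = rho l' g := by
  induction g using HNNExtension.induction_on with
  | of β => exact fun l l' h => by simp [rb_rb h]
  | t => simp
  | mul x y hx hy =>
    intro l l' h
    rw [rho_mul, rho_mul, rho_mul, kap_rho, hx l l' h, hy _ _ (by omega)]
  | inv x hx =>
    intro l l' h
    rw [rho_inv, rho_inv, rho_inv, kap_rho, hx _ _ (by omega)]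

theorem rho_mem {g : HH} (h : g ∈ G0) : ∀ l, rho l g ∈ G0 := by
  induction h using Subgroup.closure_induction with
  | mem x hx =>
    rcases hx with ⟨β, hβ, rfl⟩ | rfl
    · exact fun l => rho_of l β ▸ of_mem_G0 (rb_mem l hβ)
    · exact fun l => (rho_t l).symm ▸ t_mem_G0
  | one => exact fun l => (rho_one l).symm ▸ one_mem _
  | mul x y _ _ hx hy => exact fun l => (rho_mul l x y).symm ▸ mul_mem (hx _) (hy _)
  | inv x _ hx => exact fun l => (rho_inv l x).symm ▸ inv_mem (hx _)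

namespace GE

/-- The exponent sum of the letter `t`. -/
def tdeg : GE → ℤ
  | x => 0
  | a => 0
  | t => 1
  | apow => 0
  | mul e f => tdeg e + tdeg f
  | inv e => -tdeg e

/-- Conjugation by a negative power of `t`. -/
def down : ℕ → GE → GE
  | 0, e => e
  | M + 1, e => mul (mul (inv t) (down M e)) t

/-- Substitution for the variable. -/
def subst (s : GE) : GE → GE
  | x => s
  | a => a
  | t => t
  | apow => apow
  | mul e f => mul (subst s e) (subst s f)
  | inv e => inv (subst s e)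

theorem ev_subst {Γ : Type} [Group Γ] (X A T : Γ) (n : ℕ) (s e : GE) :
    ev X A T n (subst s e) = ev (ev X A T n s) A T n e := by
  induction e with
  | mul e f ihe ihf => simp [ev, subst, ihe, ihf]
  | inv e ih => simp [ev, subst, ih]
  | _ => simp [ev, subst]

theorem ev_down {Γ : Type} [Group Γ] (X A T : Γ) (n M : ℕ) (e : GE) :
    ev X A T n (down M e) = (T ^ M)⁻¹ * ev X A T n e * T ^ M := by
  induction M with
  | zero => simp [down]
  | succ M ih => simp [down, ev, ih, pow_succ, mul_assoc]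

theorem tdeg_down (M : ℕ) (e : GE) : (down M e).tdeg = e.tdeg := by
  induction M with
  | zero => rfl
  | succ M ih => simp [down, tdeg, ih]

end GE

/-- Evaluation in the HNN extension. -/
noncomputable abbrev evH (X : HH) (n : ℕ) (e : GE) : HH := GE.ev X (of ⟨1, 0⟩) t n e

theorem a_pow (n : ℕ) : (of ⟨1, 0⟩ : HH) ^ n = of ⟨n, 0⟩ := by rw [← map_pow, of_pow_nat]

theorem kap_ev (X : HH) (n : ℕ) (e : GE) : kap (evH X n e) = e.deg * kap X + e.tdeg := by
  induction e with
  | mul e f ihe ihf =>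
    simp only [evH, GE.ev, kap_mul, GE.deg, GE.tdeg] at ihe ihf ⊢
    rw [ihe, ihf]
    ring
  | inv e ih =>
    simp only [evH, GE.ev, kap_inv, GE.deg, GE.tdeg] at ih ⊢
    rw [ih]
    ring
  | _ => simp [evH, GE.ev, GE.deg, GE.tdeg, a_pow]

theorem kap_ev0 {X : HH} (h : kap X = 0) (n : ℕ) (e : GE) : kap (evH X n e) = e.tdeg := by
  rw [kap_ev, h, mul_zero, zero_add]

theorem ev_mem {X : HH} (h : X ∈ G0) (n : ℕ) (e : GE) : evH X n e ∈ G0 := by
  have ha : (of ⟨1, 0⟩ : HH) ∈ G0 := of_mem_G0 (by simpa using int_mem_B0 1 0)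
  induction e with
  | x => exact h
  | a => exact ha
  | t => exact t_mem_G0
  | apow => exact pow_mem ha n
  | mul e f ihe ihf => exact mul_mem ihe ihf
  | inv e ih => exact inv_mem ih

theorem rho_down (X : HH) (n M : ℕ) (e : GE) : ∀ l, rho l (evH X n (GE.down M e)) =
    (t ^ M)⁻¹ * rho (l + M) (evH X n e) * t ^ M := by
  induction M with
  | zero => simp [GE.down]
  | succ M ih =>
    intro l
    have := ih (l + 1)
    simp only [evH, GE.down, GE.ev, rho_mul, rho_inv, rho_t, kap_inv, kap_t, sub_neg_eq_add] at this ⊢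
    rw [this, pow_succ, show l + 1 + (M : ℤ) = l + (M + 1 : ℕ) by push_cast; ring]
    group

theorem rho_fix (e : GE) : ∃ D : ℕ, ∀ (X Y : HH) (n : ℕ), kap X = 0 → ∀ m : ℤ, m + D < 0 →
    (∀ l, m - D ≤ l → l ≤ m + D → rho l X = Y) → rho m (evH X n e) = evH Y n e := by
  induction e with
  | x => exact ⟨0, fun X Y n _ m _ h => h m (by omega) (by omega)⟩
  | a => exact ⟨0, fun X Y n _ m h _ => rho_of_neg (by omega) _⟩
  | t => exact ⟨0, fun X Y n _ m _ _ => rho_t m⟩
  | apow => exact ⟨0, fun X Y n _ m h _ => by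
      simp only [evH, GE.ev, a_pow]
      exact rho_of_neg (by omega) _⟩
  | mul e f ihe ihf =>
    obtain ⟨D, hD⟩ := ihe
    obtain ⟨D', hD'⟩ := ihf
    refine ⟨D + D' + e.tdeg.natAbs, fun X Y n h m h1 h2 => ?_⟩
    change rho m (evH X n e * evH X n f) = evH Y n e * evH Y n f
    rw [rho_mul, kap_ev0 h, hD X Y n h m (by omega) fun l _ _ => h2 l (by omega) (by omega),
      hD' X Y n h _ (by omega) fun l _ _ => h2 l (by omega) (by omega)]
  | inv e ih =>
    obtain ⟨D, hD⟩ := ih
    refine ⟨D + e.tdeg.natAbs, fun X Y n h m h1 h2 => ?_⟩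
    change rho m (evH X n e)⁻¹ = (evH Y n e)⁻¹
    rw [rho_inv, kap_ev0 h, hD X Y n h _ (by omega) fun l _ _ => h2 l (by omega) (by omega)]

theorem qh_ev (e : GE) : ∃ D : ℕ, ∀ β ∈ B0, ∀ (n : ℕ) (h : ℤ) (g : HH), 2 + D ≤ h → Qh h g →
    Qh (h + e.tdeg) (evH (of β) n e * g) ∧ Qh (h - e.tdeg) ((evH (of β) n e)⁻¹ * g) := by
  have key : ∀ γ ∈ B0, ∀ (h : ℤ) (g : HH), Qh h g →
      Qh (h + 0) (of γ * g) ∧ Qh (h - 0) ((of γ : HH)⁻¹ * g) := fun γ hγ h g H =>
    ⟨by simpa using H.base hγ, by simpa using H.base (inv_mem hγ)⟩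
  induction e with
  | x => exact ⟨0, fun β hβ n h g _ H => key β hβ h g H⟩
  | a => exact ⟨0, fun β _ n h g _ H => key _ (by simpa using int_mem_B0 1 0) h g H⟩
  | t => exact ⟨0, fun β _ n h g hh H => ⟨H.up (by omega), H.down (by omega)⟩⟩
  | apow => exact ⟨0, fun β _ n h g _ H => by
      simp only [evH, GE.ev, a_pow]
      exact key _ (by simpa using int_mem_B0 n 0) h g H⟩
  | mul e f ihe ihf =>
    obtain ⟨D, hD⟩ := ihe
    obtain ⟨D', hD'⟩ := ihf
    refine ⟨D + D' + e.tdeg.natAbs + f.tdeg.natAbs, fun β hβ n h g hh H => ⟨?_, ?_⟩⟩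
    · have := (hD β hβ n _ _ (by omega) (hD' β hβ n h g (by omega) H).1).1
      rw [← mul_assoc, add_assoc, add_comm f.tdeg] at this
      exact this
    · have := (hD' β hβ n _ _ (by omega) (hD β hβ n h g (by omega) H).2).2
      rw [← mul_assoc, ← mul_inv_rev, sub_sub] at this
      exact this
  | inv e ih =>
    obtain ⟨D, hD⟩ := ih
    refine ⟨D, fun β hβ n h g hh H => ⟨(hD β hβ n h g hh H).2, ?_⟩⟩
    simpa [GE.tdeg, evH, GE.ev] using (hD β hβ n h g hh H).1

theorem kill_inB (g : GE) {X : HH} (h : kap X = 0) (n : ℕ) {l : ℤ} (hl : g.tdeg.natAbs ≤ l) :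
    rho l (evH X n g.inB) = 1 := by
  have h1 := kap_ev0 h n g
  have h2 : rho (l + g.tdeg) (of ⟨1, 0⟩) = 1 := rho_a (by omega)
  have h3 : rho l (of ⟨1, 0⟩) = 1 := rho_a (by omega)
  simp only [evH] at h1
  simp only [evH, GE.inB, GE.ev, rho_mul, rho_inv, kap_mul, kap_inv, kap_of, h1, add_zero,
    neg_add_cancel, sub_zero, sub_neg_eq_add, h2, h3, mul_one, inv_one, neg_zero, inv_mul_cancel]

theorem exists_merge (L : List GE) (hL : ∀ e ∈ L, ∃ g : GE, e = g.inB) : ∃ P : GE, P.tdeg = 0 ∧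
    (∀ (Γ : Type) [Group Γ] (X A T : Γ) (n : ℕ), (∀ e ∈ L, GE.ev X A T n e = 1) →
      GE.ev X A T n P = 1) ∧
    (∃ D : ℕ, ∀ (X : HH) (n : ℕ), kap X = 0 → ∀ l : ℤ, D ≤ l → rho l (evH X n P) = 1) ∧
    ∀ (β : BS) (n : ℕ), evH (of β) n P = 1 → ∀ e ∈ L, evH (of β) n e = 1 := by
  induction L with
  | nil =>
    exact ⟨.mul .a (.inv .a), rfl, fun Γ _ X A T n _ => mul_inv_cancel _,
      ⟨0, fun X n _ l _ => by simp [evH, GE.ev]⟩, by simp⟩
  | cons e L ih =>
    obtain ⟨P, h1, h2, ⟨D, h3⟩, h4⟩ := ih fun e he => hL e (List.mem_cons_of_mem _ he)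
    obtain ⟨g, rfl⟩ := hL e (by simp)
    obtain ⟨E, hE⟩ := rho_fix g.inB
    have h0 : g.inB.tdeg = 0 := by simp [GE.inB, GE.tdeg]
    refine ⟨.mul g.inB (GE.down (D + E + 1) P), by rw [GE.tdeg, GE.tdeg_down, h0, h1, add_zero],
      fun Γ _ X A T n h => ?_, ⟨g.tdeg.natAbs + D, fun X n h l hl => ?_⟩, fun β n h => ?_⟩
    · rw [List.forall_mem_cons] at h
      rw [GE.ev, GE.ev_down, h.1, h2 Γ X A T n h.2]
      group
    · change rho l (evH X n g.inB * evH X n (GE.down _ P)) = 1
      rw [rho_mul, kill_inB g h n (by omega), kap_ev0 h, h0, rho_down, h3 X n h _ (by omega)]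
      group
    · change evH (of β) n g.inB * evH (of β) n (GE.down _ P) = 1 at h
      have h5 := congrArg (rho (-E - 1)) h
      rw [rho_mul, hE _ (of β) n (kap_of β) _ (by omega) fun l _ _ => rho_of_neg (by omega) β,
        kap_ev0 (kap_of β), h0, rho_down, h3 _ n (kap_of β) _ (by omega), rho_one, mul_one,
        inv_mul_cancel, mul_one] at h5
      rw [h5, one_mul, evH, GE.ev_down, mul_assoc, inv_mul_eq_one, eq_comm, mul_eq_right] at h
      exact List.forall_mem_cons.2 ⟨h5, h4 β n h⟩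

end Pool.Agent.Lib.MP_1ebeae_al
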