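import Pool.Agent.Lib.MP_1ebeae_al.Final
import Pool.Agent.Lib.MP_1ebeae_al.BGRho

/-!
The reduction for the Baumslag-Gersten group itself.
-/

namespace Pool.Agent.Lib.MP_1ebeae_al

open HNNExtension

theorem cons_inB (U : Tm) : ∀ e ∈ U.cons, ∃ g : GE, e = g.inB := by
  induction U with
  | add u v ihu ihv =>
    intro e he
    rcases List.mem_append.1 he with h | h
    · exact ihu e h
    · exact ihv e h
  | neg u ih => exact ih
  | mp u v ihu ihv =>
    intro e he
    rcases List.mem_cons.1 he with rfl | he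
    · exact ⟨_, rfl⟩
    · rcases List.mem_append.1 he with h | h
      · exact ihu e h
      · exact ihv e h
  | _ => simp [Tm.cons]

theorem sys_inB (U : Tm) : ∀ e ∈ U.sys, ∃ g : GE, e = g.inB := by
  intro e he
  rcases List.mem_cons.1 he with rfl | he
  · exact ⟨_, rfl⟩
  rcases List.mem_cons.1 he with rfl | he
  · exact ⟨_, rfl⟩
  exact cons_inB U e he

namespace GE

/-- The element `a b b`. -/
def d : GE := mul (mul a b) b

/-- The rigid word. -/
def top : GE :=
  mul (mul (mul (mul (mul (conj x (mul d d)) (inv d)) (conj x (inv d))) (mul d d))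
    (conj x (inv d))) (inv d)

theorem ev_top {Γ : Type} [Group Γ] (X A T : Γ) (n : ℕ) :
    ev X A T n top = tp X (A * (T * A * T⁻¹) * (T * A * T⁻¹)) := rfl

end GE

theorem tp_sound {Γ : Type} [Group Γ] {A B : Γ} (h : B * A * B⁻¹ = A ^ 2) (y τ : ℤ) :
    tp (A ^ y * B ^ τ) (A * B * B) = 1 := by
  have h1 : ∀ i j m n : ℤ, Commute ((B ^ i * A * (B ^ i)⁻¹) ^ m) ((B ^ j * A * (B ^ j)⁻¹) ^ n) := by
    intro i j m n
    refine Commute.zpow_zpow ?_ m n
    have h2 := comm_conj h 0 (j - i)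
    have h3 : (B ^ i * A * (B ^ i)⁻¹) * (B ^ j * A * (B ^ j)⁻¹) * (B ^ i * A * (B ^ i)⁻¹)⁻¹ *
        (B ^ j * A * (B ^ j)⁻¹)⁻¹ = B ^ j * (((A ^ (0 : ℤ) * B ^ (j - i))⁻¹ * A *
          (A ^ (0 : ℤ) * B ^ (j - i))) * A * ((A ^ (0 : ℤ) * B ^ (j - i))⁻¹ * A *
          (A ^ (0 : ℤ) * B ^ (j - i)))⁻¹ * A⁻¹) * (B ^ j)⁻¹ := by group
    rw [h2, mul_one, mul_inv_cancel] at h3
    exact commutatorElement_eq_one_iff_commute.1 h3
  obtain ⟨E, hE⟩ : ∃ E : ℤ → Γ, ∀ i, E i = B ^ i * A * (B ^ i)⁻¹ := ⟨_, fun _ => rfl⟩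
  simp only [← hE] at h1
  have h4 : Commute (E 0 ^ y * E τ ^ (1 : ℤ) * E 2 ^ (-y) * E 0 ^ (-1 : ℤ))
      (E 0 ^ (1 : ℤ) * E 2 ^ y * E (τ + 2) ^ (1 : ℤ) * E 4 ^ (-y) * E 2 ^ (-1 : ℤ) *
        E 0 ^ (-1 : ℤ)) := by
    repeat' first | exact h1 _ _ _ _ | apply Commute.mul_left | apply Commute.mul_right
  rw [← commutatorElement_eq_one_iff_commute, commutatorElement_def] at h4
  rw [← h4, show A * B * B = A * B ^ (2 : ℤ) by rw [zpow_two, mul_assoc]]
  simp only [hE, conj_zpow, tp]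
  group

theorem dd_eq : (of ⟨1, 0⟩ * (t * of ⟨1, 0⟩ * t⁻¹) * (t * of ⟨1, 0⟩ * t⁻¹) : HH) = of dd := by
  have h1 := t_conj 1
  rw [Int.cast_one] at h1
  rw [h1, ← map_mul, ← map_mul]
  congr 1
  ext <;> simp [dd]

theorem qh_pow (M : ℕ) : Qh M (t ^ M) := by
  induction M with
  | zero => simpa using qh_one
  | succ M ih => simpa [pow_succ'] using ih.up (by omega)

theorem Qh.down_pow (M : ℕ) {g : HH} (h : Qh (M + 1) g) : Qh 1 ((t ^ M)⁻¹ * g) := by
  induction M generalizing g with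
  | zero => simpa using h
  | succ M ih =>
    have := ih (g := t⁻¹ * g) (by simpa using h.down (by omega))
    simpa [pow_succ', mul_assoc] using this

theorem exists_single (U : Tm) : ∃ W : GE,
    (∀ (Γ : Type) [Group Γ] (A T : Γ) (n : ℕ), (T * A * T⁻¹) * A * (T * A * T⁻¹)⁻¹ = A ^ 2 →
      (∃ τ y m : ℤ, Ev n τ y U m) → ∃ X, GE.ev X A T n W = 1) ∧
    ∀ n : ℕ, ∀ X ∈ G0, evH X n W = 1 → ∃ τ y m : ℤ, Ev n τ y U m := by
  obtain ⟨P, h1, h2, ⟨D, h3⟩, h4⟩ := exists_merge U.sys (sys_inB U)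
  obtain ⟨E, hE⟩ := rho_fix P
  obtain ⟨F, hF⟩ := qh_ev P
  refine ⟨GE.subst (.mul .x .u0) (.mul (.inv .top) (GE.down (D + 2 * E + F + 1 + 1) P)),
    fun Γ _ A T n h ⟨τ, y, m, hU⟩ => ?_, fun n X hX h => ?_⟩
  · obtain ⟨h5, h6⟩ := sound h n U τ y m hU
    refine ⟨A ^ y * (T * A * T⁻¹) ^ τ, ?_⟩
    have h7 : GE.ev (A ^ y * (T * A * T⁻¹) ^ τ) A T n (.mul .x .u0) =
        A ^ y * (T * A * T⁻¹) ^ τ := by rw [GE.ev, h5, mul_one, GE.ev]
    rw [GE.ev_subst, h7, GE.ev, GE.ev, GE.ev_top, GE.ev_down, tp_sound h, h2 Γ _ A T n h6]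
    group
  · rw [evH, GE.ev_subst] at h
    have hk : kap (evH X n (.mul .x .u0)) = 0 := by
      rw [kap_ev, GE.deg, deg_u0, show (GE.mul .x .u0).tdeg = 0 by decide]
      simp [GE.deg]
    have hm := ev_mem hX n (.mul .x .u0)
    change evH (evH X n (.mul .x .u0)) n _ = 1 at h
    generalize evH X n (.mul .x .u0) = Z at h hk hm
    obtain ⟨N, hN⟩ : ∃ N, N = D + 2 * E + F + 1 := ⟨_, rfl⟩
    rw [← hN] at h
    have h5 : evH Z n .top = evH Z n (GE.down (N + 1) P) := inv_mul_eq_one.1 h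
    have h6 : ∀ l : ℤ, l < 0 → tp (rho l Z) (of dd) =
        t⁻¹ * ((t ^ N)⁻¹ * (rho (l + (N + 1 : ℕ)) (evH Z n P) * t ^ (N + 1))) := by
      intro l hl
      have := congrArg (rho l) h5
      rw [rho_down, evH, GE.ev_top, dd_eq] at this
      rw [← mul_assoc, ← mul_inv_rev, ← pow_succ, ← mul_assoc, ← this]
      simp only [tp, rho_mul, rho_inv, kap_mul, kap_inv, kap_of, hk, add_zero, neg_zero, sub_zero,
        rho_of_neg hl]
    have h7 : ∀ l : ℤ, l < 0 → D ≤ l + (N + 1 : ℕ) → ∃ β ∈ B0, rho l Z = of β := by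
      intro l hl hl'
      refine rigid (rho_mem hm l) (Qh.down_pow N ?_) (h6 l hl)
      rw [h3 Z n hk _ hl', one_mul]
      exact_mod_cast qh_pow (N + 1)
    obtain ⟨β, hβ, h8⟩ := h7 (-1) (by omega) (by omega)
    have h9 : rho (-E - 1) (evH Z n P) = evH (of β) n P :=
      hE Z (of β) n hk _ (by omega) fun l _ _ => by
        obtain ⟨γ, -, hγ⟩ := h7 l (by omega) (by omega)
        rw [← h8, ← rho_rho Z l (-1) (by omega), hγ, rho_of_neg (by omega)]
    have h10 := h6 (-E - 1 - (N + 1 : ℕ)) (by omega)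
    rw [sub_add_cancel, h9] at h10
    obtain ⟨γ, -, hγ⟩ := rigid (rho_mem hm _) (Qh.down_pow N (by
      have := (hF β hβ n _ _ (by omega) (qh_pow (N + 1))).1
      rw [h1, add_zero] at this
      exact_mod_cast this)) h10
    rw [hγ, tp_base, ← mul_assoc, ← mul_inv_rev, ← pow_succ, eq_comm, inv_mul_eq_one, eq_comm,
      mul_eq_right] at h10
    exact complete _ n U (h4 β n h10)

/-- The word of an expression; `none` is the variable, `some 0` is `a`, `some 1` is `t`. -/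
def GE.word2 (n : ℕ) : GE → List (Option (Fin 2) × Bool)
  | .x => [(none, true)]
  | .a => [(some 0, true)]
  | .t => [(some 1, true)]
  | .apow => List.replicate n (some 0, true)
  | .mul e f => e.word2 n ++ f.word2 n
  | .inv e => FreeGroup.invRev (e.word2 n)

theorem primrec_word2 (e : GE) : Primrec fun n => e.word2 n := by
  induction e with
  | apow => exact primrec_replicate _
  | mul e f ihe ihf => exact Primrec.list_append.comp ihe ihf
  | inv e ih =>
    exact Primrec.list_reverse.comp (Primrec.list_map ih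
      (Primrec.pair (Primrec.fst.comp Primrec.snd)
        (Primrec.not.comp (Primrec.snd.comp Primrec.snd))).to₂)
  | _ => exact Primrec.const _

theorem lift_word2 {Γ : Type} [Group Γ] (F : Option (Fin 2) → Γ) (n : ℕ) (e : GE) :
    FreeGroup.lift F (FreeGroup.mk (e.word2 n))
      = GE.ev (F none) (F (some 0)) (F (some 1)) n e := by
  induction e with
  | mul e f ihe ihf => rw [GE.word2, ← FreeGroup.mul_mk, map_mul, ihe, ihf, GE.ev]
  | inv e ih => rw [GE.word2, ← FreeGroup.inv_mk, map_inv, ih, GE.ev]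
  | _ => simp [GE.word2, GE.ev]

/-- The Baumslag-Gersten relator. -/
def rel2 : FreeGroup (Fin 2) :=
  FreeGroup.mk [(1, true), (0, true), (1, false), (0, true), (1, true), (0, false), (1, false),
    (0, false), (0, false)]

theorem lift_rel2 {Γ : Type} [Group Γ] (F : Fin 2 → Γ) :
    FreeGroup.lift F rel2 = 1 ↔
      (F 1 * F 0 * (F 1)⁻¹) * F 0 * (F 1 * F 0 * (F 1)⁻¹)⁻¹ = F 0 ^ 2 := by
  rw [← mul_inv_eq_one (b := F 0 ^ 2)]
  simp [rel2, mul_assoc, pow_two]

theorem reduction2 (U : Tm) : ∃ W : GE, ∀ n : ℕ, (∃ τ y m : ℤ, Ev n τ y U m) ↔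
    ∃ g : PresentedGroup ({rel2} : Set (FreeGroup (Fin 2))),
      GE.ev g (PresentedGroup.of 0) (PresentedGroup.of 1) n W = 1 := by
  obtain ⟨W, h1, h2⟩ := exists_single U
  refine ⟨W, fun n => ⟨h1 _ _ _ n ((lift_rel2 _).1 ?_), ?_⟩⟩
  · have : FreeGroup.lift (PresentedGroup.of (rels := ({rel2} : Set (FreeGroup (Fin 2)))))
        = PresentedGroup.mk _ := by
      ext i
      simp [PresentedGroup.of]
    rw [this]
    exact PresentedGroup.one_of_mem rfl
  · rintro ⟨g, hg⟩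
    let F : Fin 2 → HH := ![of ⟨1, 0⟩, t]
    have hF : ∀ r ∈ ({rel2} : Set (FreeGroup (Fin 2))), FreeGroup.lift F r = 1 := by
      rintro r rfl
      rw [lift_rel2]
      have h1 := t_conj 1
      rw [Int.cast_one] at h1
      simp only [F, Matrix.cons_val_one, Matrix.cons_val_zero, ← map_mul, ← map_inv, ← map_pow, h1]
      congr 1
      ext
      · simp [pow_two]
        norm_num
      · simp [pow_two]
    have h3 := congrArg (PresentedGroup.toGroup hF) hg
    rw [GE.map_ev, map_one] at h3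
    simp only [PresentedGroup.toGroup.of] at h3
    refine h2 n _ ?_ h3
    refine PresentedGroup.generated_by _ (G0.comap (PresentedGroup.toGroup hF)) (fun i => ?_) g
    rw [Subgroup.mem_comap, PresentedGroup.toGroup.of]
    fin_cases i
    · exact of_mem_G0 (by simpa using int_mem_B0 1 0)
    · exact t_mem_G0

theorem undecidable2 :
    ¬ ComputablePred fun w : List (Option (Fin 2) × Bool) =>
      ∃ g : PresentedGroup ({rel2} : Set (FreeGroup (Fin 2))),
        FreeGroup.lift (fun o : Option (Fin 2) => o.elim g PresentedGroup.of)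
          (FreeGroup.mk w) = 1 := by
  obtain ⟨U, hU⟩ := exists_term_undecidable
  obtain ⟨W, hW⟩ := reduction2 U
  exact fun h => hU (ComputablePred.computable_of_manyOneReducible
    ⟨fun n => W.word2 n, (primrec_word2 _).to_comp, fun n => by
      simp only [lift_word2, Option.elim]
      exact hW n⟩ h)

end Pool.Agent.Lib.MP_1ebeae_al
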