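import Pool.Agent.Lib.MP_1ebeae_al.Counter

/-!
Finite state counter machines, and one with an undecidable halting set.
-/

namespace Pool.Agent.Lib.MP_1ebeae_al

open Function

/-- A finite state counter machine: one register is tested and changed in each step. -/
structure Mach (Q ι : Type) where
  start : Q
  halt : Q
  input : ι
  reg : Q → ι
  isInc : Q → Bool
  isDec : Q → Bool
  next : Q → Bool → Q
  next_halt : ∀ b, next halt b = halt
  start_ne : start ≠ halt

namespace Mach

variable {Q ι : Type} [DecidableEq ι] (M : Mach Q ι)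

def step (x : Q × (ι → ℕ)) : Q × (ι → ℕ) :=
  (M.next x.1 (decide (x.2 (M.reg x.1) = 0)),
    fun i => if i = M.reg x.1 ∧ M.isInc x.1 = true then x.2 i + 1
      else if i = M.reg x.1 ∧ M.isDec x.1 = true then x.2 i - 1 else x.2 i)

/-- The configuration at time `r` of the run on input `n + 1`. -/
def run (n r : ℕ) : Q × (ι → ℕ) :=
  M.step^[r] (M.start, fun i => if i = M.input then n + 1 else 0)

theorem run_succ (n r : ℕ) : M.run n (r + 1) = M.step (M.run n r) := by
  simp [run, iterate_succ_apply']

theorem halt_mono {n r r' : ℕ} (h : (M.run n r).1 = M.halt) (hr : r ≤ r') :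
    (M.run n r').1 = M.halt := by
  induction hr with
  | refl => exact h
  | step _ ih => rw [run_succ]; simp [step, ih, M.next_halt]

theorem run_le (n r : ℕ) (i : ι) : (M.run n r).2 i ≤ n + 1 + r := by
  induction r with
  | zero => simp only [run, iterate_zero, id]; split_ifs <;> omega
  | succ r ih => rw [run_succ]; simp only [step]; split_ifs <;> omega

end Mach

def creg : List Prog → ℕ
  | .inc i :: _ => i
  | .dec i :: _ => i
  | .loop i _ :: _ => i
  | _ => 0

def cinc : List Prog → Bool
  | .inc _ :: _ => true
  | _ => false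

def cdec : List Prog → Bool
  | .dec _ :: _ => true
  | _ => false

def cnext : List Prog → Bool → List Prog
  | [], _ => []
  | .inc _ :: k, _ => k
  | .dec _ :: k, _ => k
  | .seq p q :: k, _ => p :: q :: k
  | .loop i p :: k, b => if b then k else p :: .loop i p :: k

/-- The infinite state machine of continuations started at `P`. -/
def cmach (P : Prog) : Mach (List Prog) ℕ where
  start := [P]
  halt := []
  input := 0
  reg := creg
  isInc := cinc
  isDec := cdec
  next := cnext
  next_halt := fun _ => rfl
  start_ne := by simp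

theorem Exec.steps (P : Prog) {p : Prog} {σ σ' : ℕ → ℕ} (h : Exec p σ σ') (k : List Prog) :
    ∃ t, (cmach P).step^[t] (p :: k, σ) = (k, σ') := by
  induction h generalizing k with
  | inc i σ =>
    refine ⟨1, Prod.ext rfl ?_⟩
    funext j
    simp only [iterate_one, Mach.step, cmach, creg, cinc, cdec, update_apply]
    split_ifs <;> simp_all
  | dec i σ =>
    refine ⟨1, Prod.ext rfl ?_⟩
    funext j
    simp only [iterate_one, Mach.step, cmach, creg, cinc, cdec, update_apply]
    split_ifs <;> simp_all
  | @seq p q σ σ' σ'' _ _ ih1 ih2 =>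
    obtain ⟨t1, h1⟩ := ih1 (q :: k)
    obtain ⟨t2, h2⟩ := ih2 k
    refine ⟨t2 + (t1 + 1), ?_⟩
    have : (cmach P).step (.seq p q :: k, σ) = (p :: q :: k, σ) := by
      simp [Mach.step, cmach, cinc, cdec, cnext]
    rw [iterate_add_apply, iterate_succ_apply, this, h1, h2]
  | @loop0 i p σ h0 =>
    refine ⟨1, ?_⟩
    simp [Mach.step, cmach, cinc, cdec, cnext, creg, h0]
  | @loopS i p σ σ' σ'' h0 _ _ ih1 ih2 =>
    obtain ⟨t1, h1⟩ := ih1 (.loop i p :: k)
    obtain ⟨t2, h2⟩ := ih2 k
    refine ⟨t2 + (t1 + 1), ?_⟩
    have : (cmach P).step (.loop i p :: k, σ) = (p :: .loop i p :: k, σ) := by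
      simp [Mach.step, cmach, cinc, cdec, cnext, creg, h0]
    rw [iterate_add_apply, iterate_succ_apply, this, h1, h2]

/-- The continuations met while running `p` on top of `k`. -/
def conts : Prog → List Prog → List (List Prog)
  | .inc i, k => [.inc i :: k]
  | .dec i, k => [.dec i :: k]
  | .seq p q, k => (.seq p q :: k) :: (conts p (q :: k) ++ conts q k)
  | .loop i p, k => (.loop i p :: k) :: conts p (.loop i p :: k)

theorem self_mem_conts (p : Prog) (k : List Prog) : (p :: k) ∈ conts p k := by
  cases p <;> simp [conts]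

theorem conts_closed (p : Prog) (k : List Prog) (c : List Prog) (hc : c ∈ conts p k) (b : Bool) :
    cnext c b ∈ conts p k ∨ cnext c b = k := by
  induction p generalizing k with
  | inc i => simp only [conts, List.mem_singleton] at hc; subst hc; exact Or.inr rfl
  | dec i => simp only [conts, List.mem_singleton] at hc; subst hc; exact Or.inr rfl
  | seq p q ihp ihq =>
    simp only [conts, List.mem_cons, List.mem_append] at hc ⊢
    rcases hc with rfl | hc | hc
    · exact Or.inl (Or.inr (Or.inl (self_mem_conts _ _)))
    · rcases ihp _ hc with h | h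
      · exact Or.inl (Or.inr (Or.inl h))
      · exact Or.inl (Or.inr (Or.inr (h ▸ self_mem_conts _ _)))
    · rcases ihq _ hc with h | h
      · exact Or.inl (Or.inr (Or.inr h))
      · exact Or.inr h
  | loop i p ih =>
    simp only [conts, List.mem_cons] at hc ⊢
    rcases hc with rfl | hc
    · cases b
      · exact Or.inl (Or.inr (self_mem_conts _ _))
      · exact Or.inr rfl
    · rcases ih _ hc with h | h
      · exact Or.inl (Or.inr h)
      · exact Or.inl (Or.inl h)

/-- Every program is simulated by a finite state machine with finitely many registers. -/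
theorem exists_finite_mach (P : Prog) :
    ∃ (Q ι : Type) (_ : Fintype Q) (_ : Fintype ι) (_ : DecidableEq ι) (M : Mach Q ι),
      ∀ n r, (M.run n r).1 = M.halt ↔ ((cmach P).run n r).1 = [] := by
  classical
  let S : Finset (List Prog) := ([] :: conts P []).toFinset
  have hS : ∀ c ∈ S, ∀ b, cnext c b ∈ S := by
    intro c hc b
    simp only [S, List.mem_toFinset, List.mem_cons] at hc ⊢
    rcases hc with rfl | hc
    · exact Or.inl rfl
    · exact (conts_closed P [] c hc b).symm
  let R : Finset ℕ := insert 0 (S.image creg)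
  let M : Mach S R :=
    { start := ⟨[P], by simp [S, self_mem_conts]⟩
      halt := ⟨[], by simp [S]⟩
      input := ⟨0, by simp [R]⟩
      reg := fun c => ⟨creg c.1, by
        simp only [R, Finset.mem_insert, Finset.mem_image]
        exact Or.inr ⟨c.1, c.2, rfl⟩⟩
      isInc := fun c => cinc c.1
      isDec := fun c => cdec c.1
      next := fun c b => ⟨cnext c.1 b, hS _ c.2 b⟩
      next_halt := fun _ => rfl
      start_ne := by simp }
  refine ⟨S, R, inferInstance, inferInstance, inferInstance, M, fun n r => ?_⟩
  have : ((M.run n r).1 : List Prog) = ((cmach P).run n r).1 ∧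
      ∀ i : R, (M.run n r).2 i = ((cmach P).run n r).2 i := by
    induction r with
    | zero =>
      refine ⟨rfl, fun i => ?_⟩
      simp [Mach.run, M, cmach, Subtype.ext_iff]
    | succ r ih =>
      obtain ⟨h1, h2⟩ := ih
      rw [Mach.run_succ, Mach.run_succ]
      refine ⟨?_, fun i => ?_⟩
      · simp only [Mach.step, h2, ← h1]
        rfl
      · simp only [Mach.step, h2, Subtype.ext_iff, ← h1]
        rfl
  rw [← this.1, Subtype.ext_iff]

/-- A search over a primitive recursive relation is a halting set. -/
theorem exists_prog_search (p : ℕ → ℕ → ℕ) (hp : Primrec₂ p) :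
    ∃ P : Prog, ∀ n, (∃ k, p n k = 0) ↔ ∃ r, ((cmach P).run n r).1 = [] := by
  obtain ⟨G, hG⟩ := computes_of_prim (Nat.Primrec'.prim_iff₂.2 hp) ![0, 1] 2 3
    (by decide) (by omega) (by decide)
  let body : Prog := .seq (clear 2) (.seq (.inc 1) G)
  let P : Prog := .seq (.seq (.dec 0) G) (.loop 2 body)
  refine ⟨P, fun n => ?_⟩
  let S : ℕ → ℕ → ℕ := fun m j => if j = 0 then n else if j = 1 then m else
    if j = 2 then p n m else 0
  have hG' : ∀ σ : ℕ → ℕ, (∀ j, 3 ≤ j → σ j = 0) →
      Exec G σ (update σ 2 (σ 2 + p (σ 0) (σ 1))) := fun σ hσ =>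
    (hG σ hσ).of_eq (by simp [List.Vector.head_ofFn, List.Vector.tail_ofFn])
  have h0 : Exec (.seq (.dec 0) G) (fun i => if i = 0 then n + 1 else 0) (S 0) := by
    refine (Exec.seq (.dec 0 _) (hG' _ fun j hj => ?_)).of_eq ?_
    · rw [update_of_ne (by omega), if_neg (by omega)]
    · funext j
      simp only [S, update_apply]
      split_ifs <;> simp_all
  have hb : ∀ m, Exec body (S m) (S (m + 1)) := by
    intro m
    refine (Exec.seq (exec_clear 2 _) (.seq (.inc 1 _) (hG' _ fun j hj => ?_))).of_eq ?_
    · rw [update_of_ne (by omega), update_of_ne (by omega)]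
      simp only [S]
      rw [if_neg (by omega), if_neg (by omega), if_neg (by omega)]
    · funext j
      simp only [S, update_apply]
      generalize p n m = a
      split_ifs <;> first | omega | simp_all
  constructor
  · intro h
    classical
    have hl : Exec (.loop 2 body) (S 0) (S (Nat.find h)) :=
      Exec.count S _ (by simpa [S] using Nat.find_spec h)
        fun m hm => ⟨by simpa [S] using Nat.find_min h hm, hb m⟩
    obtain ⟨t, ht⟩ := (Exec.seq h0 hl).steps P []
    exact ⟨t, congrArg Prod.fst ht⟩
  · rintro ⟨r, hr⟩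
    by_contra hne
    push Not at hne
    have key : ∀ m, ∃ t, m ≤ t ∧ (cmach P).run n t = ([.loop 2 body], S m) := by
      intro m
      induction m with
      | zero =>
        obtain ⟨t, ht⟩ := h0.steps P [.loop 2 body]
        refine ⟨t + 1, by omega, ?_⟩
        rw [Mach.run, iterate_succ_apply, ← ht]
        congr 1
        simp [Mach.step, cmach, cinc, cdec, cnext, P]
        rfl
      | succ m ih =>
        obtain ⟨t, ht1, ht2⟩ := ih
        obtain ⟨t', ht'⟩ := (hb m).steps P [.loop 2 body]
        refine ⟨t' + (t + 1), by omega, ?_⟩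
        have h3 := Mach.run_succ (cmach P) n t
        rw [ht2] at h3
        rw [Mach.run, iterate_add_apply, ← Mach.run, h3, ← ht']
        congr 1
        simp [Mach.step, cmach, cinc, cdec, cnext, creg, S, hne m]
    obtain ⟨t, ht1, ht2⟩ := key r
    have := Mach.halt_mono (cmach P) hr ht1
    rw [ht2] at this
    simp [cmach] at this

open Nat.Partrec (Code) in
/-- A finite state counter machine whose halting set is not decidable. -/
theorem exists_mach_undecidable :
    ∃ (Q ι : Type) (_ : Fintype Q) (_ : Fintype ι) (_ : DecidableEq ι) (M : Mach Q ι),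
      ¬ ComputablePred fun n : ℕ => ∃ r, (M.run n r).1 = M.halt := by
  let p : ℕ → ℕ → ℕ := fun n k =>
    if (Code.evaln k (Denumerable.ofNat Code n) 0).isSome = true then 0 else 1
  have hp : Primrec₂ p := by
    have h1 : Primrec fun a : ℕ × ℕ => Code.evaln a.2 (Denumerable.ofNat Code a.1) 0 :=
      Code.primrec_evaln.comp (Primrec.pair (Primrec.pair Primrec.snd
        ((Primrec.ofNat Code).comp Primrec.fst)) (Primrec.const 0))
    exact Primrec.ite (Primrec.eq.comp (Primrec.option_isSome.comp h1) (Primrec.const true))
      (Primrec.const 0) (Primrec.const 1)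
  obtain ⟨P, hP⟩ := exists_prog_search p hp
  obtain ⟨Q, ι, i1, i2, i3, M, hM⟩ := exists_finite_mach P
  refine ⟨Q, ι, i1, i2, i3, M, fun h => ComputablePred.halting_problem 0 ?_⟩
  refine ComputablePred.computable_of_manyOneReducible
    ⟨fun c => Encodable.encode c, Computable.encode, fun c => ?_⟩ h
  simp only [hM, ← hP, p, Denumerable.ofNat_encode]
  constructor
  · intro h
    obtain ⟨k, hk⟩ := Code.evaln_complete.1 (Part.get_mem h)
    exact ⟨k, by rw [if_pos]; exact Option.isSome_of_mem hk⟩
  · rintro ⟨k, hk⟩
    by_cases h : (Code.evaln k c 0).isSome = true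
    · obtain ⟨x, hx⟩ := Option.isSome_iff_exists.1 h
      exact Part.dom_iff_mem.2 ⟨x, Code.evaln_sound hx⟩
    · rw [if_neg h] at hk
      omega

end Pool.Agent.Lib.MP_1ebeae_al
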