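import Pool.Agent.Lib.MP_1ebeae_al.Tiles
import Pool.Agent.Lib.MP_1ebeae_al.Machine

/-!
The run of a counter machine written row by row in unary satisfies a recurrence with the four
offsets `1, l, l + 1, l + 2`, where `l + 1` is the length of a row.
-/

namespace Pool.Agent.Lib.MP_1ebeae_al

open Finset

/-- Colours: first cell mark, control state, one unary bit for each register. -/
abbrev Col (Q ι : Type) := Bool × Q × (ι → Bool)

namespace Mach

variable {Q ι : Type} [DecidableEq Q] [DecidableEq ι] (M : Mach Q ι)

def dead : Col Q ι := (false, M.halt, fun _ => false)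

def norm (x : Col Q ι) : Col Q ι := if x.2.1 = M.halt then M.dead else x

def color (n r p : ℕ) : Col Q ι :=
  M.norm (decide (p = 0), (M.run n r).1, fun i => decide (p < (M.run n r).2 i))

def rule (t : Fin 4 → Col Q ι) : Col Q ι :=
  M.norm ((t 2).1,
    if (t 2).1 = true then M.next (t 2).2.1 (!(t 2).2.2 (M.reg (t 2).2.1)) else (t 0).2.1,
    fun i => if i = M.reg (t 2).2.1 ∧ M.isInc (t 2).2.1 = true then ((t 2).1 || (t 3).2.2 i)
      else if i = M.reg (t 2).2.1 ∧ M.isDec (t 2).2.1 = true then ((t 2).2.2 i && (t 1).2.2 i)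
      else (t 2).2.2 i)

omit [DecidableEq ι] in
theorem norm_state (x : Col Q ι) : (M.norm x).2.1 = x.2.1 := by
  unfold norm
  split_ifs with h
  · exact h.symm
  · rfl

theorem color_state (n r p : ℕ) : (M.color n r p).2.1 = (M.run n r).1 := M.norm_state _

theorem color_dead {n r : ℕ} (p : ℕ) (h : (M.run n r).1 = M.halt) : M.color n r p = M.dead := by
  simp [color, norm, h]

theorem color_live {n r : ℕ} (p : ℕ) (h : (M.run n r).1 ≠ M.halt) : M.color n r p =
    (decide (p = 0), (M.run n r).1, fun i => decide (p < (M.run n r).2 i)) := by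
  simp [color, norm, h]

theorem rule_color (n r p l : ℕ) (hp : p ≤ l) (hb : ∀ i, (M.run n r).2 i ≤ l)
    (t : Fin 4 → Col Q ι) (h2 : t 2 = M.color n r p)
    (h0 : (t 0).2.1 = if p = 0 then (M.run n r).1 else (M.run n (r + 1)).1)
    (h3 : 0 < p → t 3 = M.color n r (p - 1)) (h1 : p < l → t 1 = M.color n r (p + 1)) :
    M.rule t = M.color n (r + 1) p := by
  by_cases hq : (M.run n r).1 = M.halt
  · have hq' := M.halt_mono hq (Nat.le_succ r)
    rw [M.color_dead p hq']
    rw [M.color_dead p hq] at h2
    have h0' : (t 0).2.1 = M.halt := by rw [h0]; split_ifs <;> assumption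
    simp [rule, norm, h2, dead, h0']
  · rw [M.color_live p hq] at h2
    rw [rule, color, h2]
    congr 1
    refine Prod.ext rfl (Prod.ext ?_ ?_)
    · simp only [decide_eq_true_eq, h0]
      split_ifs with h
      · rw [run_succ, h]
        simp only [step]
        congr 1
        rcases Nat.eq_zero_or_pos ((M.run n r).2 (M.reg (M.run n r).1)) with h | h
        · simp [h]
        · simp [h, h.ne']
      · rfl
    · funext i
      rw [run_succ]
      simp only [step]
      split_ifs with h4 h5
      · rcases Nat.eq_zero_or_pos p with h | h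
        · simp [h]
        · rw [h3 h, M.color_live _ hq]
          simp only [h.ne', decide_false, Bool.false_or, decide_eq_decide]
          omega
      · rcases hp.lt_or_eq with h | h
        · rw [h1 h, M.color_live _ hq]
          simp only [← Bool.decide_and, decide_eq_decide]
          omega
        · have := hb i
          have h6 : ¬ p < (M.run n r).2 i := by omega
          have h7 : ¬ p < (M.run n r).2 i - 1 := by omega
          simp [h6, h7]
      · rfl

def cell (n l j : ℕ) : Col Q ι := M.color n (j / (l + 1)) (j % (l + 1))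

def full (n l j : ℕ) : Col Q ι := M.cell n l (j - 1)

theorem cell_eq (n l r p : ℕ) (hp : p ≤ l) : M.cell n l ((l + 1) * r + p) = M.color n r p := by
  rw [cell, Nat.mul_add_div (by omega), Nat.mul_add_mod, Nat.div_eq_of_lt (by omega),
    Nat.mod_eq_of_lt (by omega), add_zero]

/-- The four offsets. -/
def off (l : ℕ) : Fin 4 → ℕ := ![1, l, l + 1, l + 2]

theorem full_rec (n l R : ℕ) (hl : n + 1 + R ≤ l) (j : ℕ) (hj : j < (l + 1) * R) :
    M.full n l (l + 2 + j) = M.rule fun i => M.full n l (l + 2 + j - off l i) := by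
  obtain ⟨r, p, hp, rfl⟩ : ∃ r p, p ≤ l ∧ j = (l + 1) * r + p :=
    ⟨j / (l + 1), j % (l + 1), Nat.le_of_lt_succ (Nat.mod_lt _ (by omega)),
      (Nat.div_add_mod _ _).symm⟩
  have hr : r < R := by
    by_contra h
    have := Nat.mul_le_mul_left (l + 1) (not_lt.1 h)
    omega
  have e1 : (l + 1) * (r + 1) = (l + 1) * r + (l + 1) := by ring
  rw [M.rule_color n r p l hp (fun i => by have := M.run_le n r i; omega)]
  · rw [full, ← M.cell_eq n l (r + 1) p hp]
    congr 1
    omega
  · simp only [full, off]
    rw [← M.cell_eq n l r p hp]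
    congr 1
    simp
    omega
  · simp only [full, off]
    split_ifs with h
    · rw [← M.color_state n r l, ← M.cell_eq n l r l le_rfl]
      congr 3
      simp
      omega
    · rw [← M.color_state n (r + 1) (p - 1), ← M.cell_eq n l (r + 1) (p - 1) (by omega)]
      congr 3
      simp
      omega
  · intro h
    simp only [full, off]
    rw [← M.cell_eq n l r (p - 1) (by omega)]
    congr 1
    simp
    omega
  · intro h
    simp only [full, off]
    rw [← M.cell_eq n l r (p + 1) (by omega)]
    congr 1
    simp
    omega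

theorem off_le (l : ℕ) (i : Fin 4) : off l i ≤ l + 2 := by
  fin_cases i <;> simp [off]

theorem one_le_off (l : ℕ) (hl : 1 ≤ l) (i : Fin 4) : 1 ≤ off l i := by
  fin_cases i <;> simp [off, hl]

theorem final_iff (n l R : ℕ) :
    (∀ i, ∀ j < off l i, M.full n l (l + 2 + (l + 1) * (R + 1) + j - off l i) = M.dead) ↔
      (M.run n R).1 = M.halt := by
  have e1 : (l + 1) * (R + 1) = (l + 1) * R + (l + 1) := by ring
  constructor
  · intro h
    have h1 := h 3 0 (by simp [off])
    have h2 : M.full n l (l + 2 + (l + 1) * (R + 1) + 0 - off l 3) = M.color n R l := by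
      rw [full, ← M.cell_eq n l R l le_rfl]
      congr 1
      simp [off]
      omega
    rw [← M.color_state n R l, ← h2, h1]
    rfl
  · intro h i j _
    have := off_le l i
    refine M.color_dead _ (M.halt_mono h ?_)
    rw [Nat.le_div_iff_mul_le (by omega), mul_comm]
    omega

theorem sum_three (o a b : ℕ) (ha : a ≤ o) (hb : b ≤ o) (α β γ : ℤ) (x : ℕ → ℕ)
    (hx : ∀ j < o, (x j : ℤ) = (if j < a then α else 0) + (if j < b then β else 0) + γ) :
    ((∑ j ∈ range o, 2 ^ j * x j : ℕ) : ℤ)
      = α * (2 ^ a - 1) + β * (2 ^ b - 1) + γ * (2 ^ o - 1) := by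
  have h0 : ∀ a : ℕ, ∑ j ∈ range a, (2 : ℤ) ^ j = 2 ^ a - 1 := by
    intro a
    have := sum_two_pow a
    zify at this
    linarith
  have h1 : ∀ (a : ℕ) (α : ℤ), a ≤ o →
      ∑ j ∈ range o, (2 : ℤ) ^ j * (if j < a then α else 0) = α * (2 ^ a - 1) := by
    intro a α ha
    obtain ⟨d, rfl⟩ := Nat.exists_eq_add_of_le ha
    rw [sum_range_add, ← h0, mul_sum]
    rw [sum_eq_zero (s := range d) fun j _ => by rw [if_neg (by omega), mul_zero], add_zero]
    exact sum_congr rfl fun j hj => by rw [if_pos (mem_range.1 hj), mul_comm]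
  rw [← h1 a α ha, ← h1 b β hb, ← h0 o, mul_sum, ← sum_add_distrib, ← sum_add_distrib]
  push_cast
  exact sum_congr rfl fun j hj => by rw [hx j (mem_range.1 hj)]; ring

variable [Fintype ι]

theorem mid_eq (c : Col Q ι) : ∃ α β γ : ℤ, ∀ n l : ℕ, n + 1 ≤ l → ∀ i : Fin 4,
    (mid (M.full n l) (l + 2) (off l i) c : ℤ)
      = α * (2 ^ (![0, 0, 1, 2] i : ℕ) - 1) + β * (2 ^ (![0, n, n + 1, n + 2] i : ℕ) - 1)
        + γ * (2 ^ off l i - 1) := by
  let cA : Col Q ι := (true, M.start, fun i => decide (i = M.input))
  let c1 : Col Q ι := (false, M.start, fun i => decide (i = M.input))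
  let c0 : Col Q ι := (false, M.start, fun _ => false)
  let ind : Col Q ι → ℤ := fun x => if x = c then 1 else 0
  refine ⟨ind cA - ind c1, ind c1 - ind c0, ind c0, fun n l hl i => ?_⟩
  have hc : ∀ p ≤ l, (((if M.cell n l p = c then 1 else 0 : ℕ)) : ℤ)
      = (if p < 1 then ind cA - ind c1 else 0) + (if p < n + 1 then ind c1 - ind c0 else 0)
        + ind c0 := by
    intro p hp
    have h1 : M.cell n l p = if p < 1 then cA else if p < n + 1 then c1 else c0 := by
      have := M.cell_eq n l 0 p hp
      rw [mul_zero, zero_add] at this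
      rw [this, M.color_live (n := n) (r := 0) p M.start_ne]
      simp only [run, Function.iterate_zero, id, cA, c1, c0]
      split_ifs with h1 h2
      · obtain rfl : p = 0 := by omega
        simp only [decide_true, Prod.mk.injEq, true_and]
        funext i
        by_cases h : i = M.input <;> simp [h]
      · have : p ≠ 0 := by omega
        simp only [this, decide_false, Prod.mk.injEq, true_and]
        funext i
        by_cases h : i = M.input <;> simp [h, h2]
      · have : p ≠ 0 := by omega
        simp only [this, decide_false, Prod.mk.injEq, true_and]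
        funext i
        by_cases h : i = M.input <;> simp [h, h2]
    have h2 : (((if M.cell n l p = c then 1 else 0 : ℕ)) : ℤ) = ind (M.cell n l p) := by
      simp [ind]
    rw [h2, h1]
    split_ifs <;> omega
  refine sum_three _ _ _ ?_ ?_ _ _ _ _ fun j hj => ?_
  · fin_cases i <;> simp [off]
  · fin_cases i <;> simp [off] <;> omega
  · have := off_le l i
    rw [full, hc _ (by omega)]
    fin_cases i <;> simp only [off] at hj ⊢ <;> simp at hj ⊢ <;> split_ifs <;> omega

end Mach

end Pool.Agent.Lib.MP_1ebeae_al
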