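import Mathlib

/-!
Digit extraction: the parity of the number of tile sequences satisfying one linear equation
is read off from one binary digit of the 2-adic number `1 / (1 - g (2 ^ e))`.
-/

namespace Pool.Agent.Lib.MP_1ebeae_al

open Finset Polynomial

/-- Uniqueness of base `K` digits. -/
theorem digits_unique (K : ℕ) (N : ℕ) (x y : ℕ → ℕ) (hx : ∀ j < N, x j < K) (hy : ∀ j < N, y j < K)
    (h : ∑ j ∈ range N, K ^ j * x j = ∑ j ∈ range N, K ^ j * y j) : ∀ j < N, x j = y j := by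
  induction N generalizing x y with
  | zero => intro j hj; omega
  | succ N ih =>
    rw [sum_range_succ', sum_range_succ'] at h
    have e1 : ∀ z : ℕ → ℕ, ∑ j ∈ range N, K ^ (j + 1) * z (j + 1)
        = K * ∑ j ∈ range N, K ^ j * z (j + 1) := by
      intro z
      rw [mul_sum]
      exact sum_congr rfl fun j _ => by ring
    rw [e1, e1] at h
    simp only [pow_zero, one_mul] at h
    have hx0 := hx 0 (Nat.succ_pos N)
    have hy0 := hy 0 (Nat.succ_pos N)
    have h0 : x 0 = y 0 := by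
      have h1 := congrArg (· % K) h
      simp only [Nat.mul_add_mod] at h1
      rwa [Nat.mod_eq_of_lt hx0, Nat.mod_eq_of_lt hy0] at h1
    have h2 : ∑ j ∈ range N, K ^ j * x (j + 1) = ∑ j ∈ range N, K ^ j * y (j + 1) := by
      rw [h0] at h
      exact Nat.eq_of_mul_eq_mul_left (by omega) (Nat.add_right_cancel h)
    have h3 := ih (fun j => x (j + 1)) (fun j => y (j + 1)) (fun j hj => hx _ (by omega))
      (fun j hj => hy _ (by omega)) h2
    intro j hj
    rcases j with _ | j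
    · exact h0
    · exact h3 j (by omega)

theorem digits_lt (K : ℕ) (N : ℕ) (x : ℕ → ℕ) (hx : ∀ j < N, x j < K) :
    ∑ j ∈ range N, K ^ j * x j < K ^ N := by
  induction N with
  | zero => simp
  | succ N ih =>
    rw [sum_range_succ]
    have h1 := ih fun j hj => hx j (by omega)
    have h2 := hx N (by omega)
    calc ∑ j ∈ range N, K ^ j * x j + K ^ N * x N < K ^ N + K ^ N * x N := by omega
      _ = K ^ N * (x N + 1) := by ring
      _ ≤ K ^ N * K := Nat.mul_le_mul_left _ h2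
      _ = K ^ (N + 1) := by ring

/-- Frobenius: the coefficient of `g ^ (2 ^ s - 1)` counts sequences mod 2. -/
theorem coeff_pow_parity {T : Type} [Fintype T] [DecidableEq T] (w : T → ℕ) (s D : ℕ) :
    ((((∑ t : T, X ^ w t : ℕ[X]) ^ (2 ^ s - 1)).coeff D : ℕ) : ZMod 2)
      = ((univ.filter fun u : Fin s → T => ∑ j : Fin s, 2 ^ (j : ℕ) * w (u j) = D).card : ZMod 2) := by
  have h1 : ((((∑ t : T, X ^ w t : ℕ[X]) ^ (2 ^ s - 1)).coeff D : ℕ) : ZMod 2)
      = ((∑ t : T, X ^ w t : (ZMod 2)[X]) ^ (2 ^ s - 1)).coeff D := by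
    have := Polynomial.coeff_map (p := (∑ t : T, X ^ w t : ℕ[X]) ^ (2 ^ s - 1))
      (Nat.castRingHom (ZMod 2)) D
    simp only [Polynomial.map_pow, Polynomial.map_sum, map_X, eq_natCast] at this
    exact this.symm
  have h2 : (2 ^ s - 1 : ℕ) = ∑ j : Fin s, 2 ^ (j : ℕ) := by
    rw [Fin.sum_univ_eq_sum_range (fun j => 2 ^ j) s, Nat.geomSum_eq (le_refl 2)]
    simp
  have : Fact (Nat.Prime 2) := ⟨Nat.prime_two⟩
  have h3 : ((∑ t : T, X ^ w t : (ZMod 2)[X]) ^ (2 ^ s - 1))
      = ∑ u : Fin s → T, X ^ (∑ j : Fin s, 2 ^ (j : ℕ) * w (u j)) := by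
    rw [h2, ← prod_pow_eq_pow_sum]
    have : ∀ j : Fin s, (∑ t : T, X ^ w t : (ZMod 2)[X]) ^ (2 ^ (j : ℕ))
        = ∑ t : T, X ^ (2 ^ (j : ℕ) * w t) := by
      intro j
      rw [sum_pow_char_pow]
      exact sum_congr rfl fun t _ => by rw [← pow_mul, mul_comm]
    simp_rw [this]
    rw [prod_univ_sum]
    simp only [Fintype.piFinset_univ]
    exact sum_congr rfl fun u _ => by rw [prod_pow_eq_pow_sum]
  rw [h1, h3, finsetSum_coeff]
  simp only [coeff_X_pow]
  rw [card_filter]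
  push_cast
  exact sum_congr rfl fun u _ => by simp [eq_comm]

theorem coeff_le_eval_one (p : ℕ[X]) (k : ℕ) : p.coeff k ≤ p.eval 1 := by
  rw [eval_eq_sum_range' (n := max (p.natDegree + 1) (k + 1)) (by omega)]
  simp only [one_pow, mul_one]
  exact single_le_sum (f := fun i => p.coeff i) (fun _ _ => Nat.zero_le _)
    (mem_range.2 (by omega))

theorem geom_le (t N : ℕ) : ∑ m ∈ range N, t ^ m < (t + 1) ^ N + 1 := by
  induction N with
  | zero => simp
  | succ N ih =>
    rw [sum_range_succ]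
    rcases Nat.eq_zero_or_pos t with rfl | ht
    · rcases N with _ | N
      · simp
      · rw [sum_range_succ']
        simp
    · have h1 : t ^ N ≤ (t + 1) ^ N := Nat.pow_le_pow_left (by omega) N
      have h2 : (t + 1) ^ (N + 1) = (t + 1) ^ N * t + (t + 1) ^ N := by ring
      have h3 : (t + 1) ^ N ≤ (t + 1) ^ N * t := Nat.le_mul_of_pos_right _ ht
      omega

/-- The digit of `p (2 ^ e)` at binary position `e * D` is the parity of the `D`-th
coefficient. -/
theorem eval_digit (p : ℕ[X]) (e D : ℕ) (he : 1 ≤ e) (hp : ∀ k, p.coeff k < 2 ^ e) :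
    ∃ low q : ℕ, low < 2 ^ (e * D) ∧
      p.eval (2 ^ e) = low + 2 ^ (e * D) * (p.coeff D % 2) + 2 ^ (e * D + 1) * q := by
  set N := p.natDegree + 1 with hN
  rw [eval_eq_sum_range' (n := D + (N + 1)) (by omega), sum_range_add, sum_range_succ']
  obtain ⟨e', rfl⟩ : ∃ e', e = e' + 1 := ⟨e - 1, by omega⟩
  refine ⟨∑ i ∈ range D, (2 ^ (e' + 1)) ^ i * p.coeff i,
    p.coeff D / 2 + 2 ^ e' * ∑ i ∈ range N, p.coeff (D + (i + 1)) * (2 ^ (e' + 1)) ^ i, ?_, ?_⟩
  · rw [pow_mul]
    exact digits_lt _ _ _ fun j _ => hp j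
  · have h1 : ∑ i ∈ range N, p.coeff (D + (i + 1)) * (2 ^ (e' + 1)) ^ (D + (i + 1))
        = 2 ^ ((e' + 1) * D + 1) *
          (2 ^ e' * ∑ i ∈ range N, p.coeff (D + (i + 1)) * (2 ^ (e' + 1)) ^ i) := by
      rw [mul_sum, mul_sum]
      exact sum_congr rfl fun i _ => by ring
    have h2 : ∑ i ∈ range D, p.coeff i * (2 ^ (e' + 1)) ^ i
        = ∑ i ∈ range D, (2 ^ (e' + 1)) ^ i * p.coeff i :=
      sum_congr rfl fun i _ => mul_comm _ _
    rw [h1, h2]
    have h3 := Nat.mod_add_div (p.coeff D) 2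
    have h4 : p.coeff (D + 0) * (2 ^ (e' + 1)) ^ (D + 0)
        = 2 ^ ((e' + 1) * D) * (p.coeff D % 2 + 2 * (p.coeff D / 2)) := by
      rw [h3, pow_mul, add_zero, mul_comm]
    rw [h4]
    ring

/-- The main digit lemma. -/
theorem digit_iff {T : Type} [Fintype T] [DecidableEq T] (w : T → ℕ) (s d K e : ℕ)
    (hw : ∀ t, 2 ^ s * w t < K) (hd : d < K) (he1 : 1 ≤ e)
    (he : (Fintype.card T + 1) ^ (2 ^ s) < 2 ^ e) :
    (∃ y : ℤ, (2 : ℤ) ^ (e * (d + K * (2 ^ s - 1)) + 1) ∣
        (1 - ∑ t : T, (2 : ℤ) ^ (e * (w t + K))) * y - 1 ∧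
        (2 : ℤ) ^ (e * (d + K * (2 ^ s - 1))) ≤ y ∧
        y < (2 : ℤ) ^ (e * (d + K * (2 ^ s - 1)) + 1)) ↔
      Odd (univ.filter fun u : Fin s → T => ∑ j : Fin s, 2 ^ (j : ℕ) * w (u j) = d).card := by
  set M := 2 ^ s - 1 with hM
  have hM1 : M + 1 = 2 ^ s := by have := Nat.one_le_two_pow (n := s); omega
  set D := d + K * M with hD
  set g : ℕ[X] := ∑ t : T, X ^ (w t + K) with hg
  set S : ℕ[X] := ∑ m ∈ range (M + 1), g ^ m with hS
  -- the coefficient of `S` at `D`
  have hcoeff : S.coeff D = (g ^ M).coeff D := by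
    rw [hS, finsetSum_coeff, sum_range_succ, sum_eq_zero, zero_add]
    intro m hm
    have hm' := mem_range.1 hm
    apply coeff_eq_zero_of_natDegree_lt
    obtain ⟨W, hW1, hW2⟩ : ∃ W, (∀ t, w t ≤ W) ∧ 2 ^ s * W < K := by
      refine ⟨univ.sup w, fun t => le_sup (f := w) (mem_univ t), ?_⟩
      rcases isEmpty_or_nonempty T with hT | hT
      · simp; omega
      · obtain ⟨t, -, ht⟩ := exists_mem_eq_sup (univ : Finset T) univ_nonempty w
        rw [ht]; exact hw t
    have hdeg : g.natDegree ≤ W + K := by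
      apply natDegree_sum_le_of_forall_le
      intro t _
      exact (natDegree_X_pow_le _).trans (by have := hW1 t; omega)
    calc (g ^ m).natDegree ≤ m * g.natDegree := natDegree_pow_le
      _ ≤ m * (W + K) := Nat.mul_le_mul_left _ hdeg
      _ = m * W + K * m := by ring
      _ < K + K * m := by
          have : m * W ≤ 2 ^ s * W := Nat.mul_le_mul_right _ (by omega)
          omega
      _ = K * (m + 1) := by ring
      _ ≤ K * M := Nat.mul_le_mul_left _ hm'
      _ ≤ D := by omega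
  have hpar : Odd (S.coeff D) ↔
      Odd (univ.filter fun u : Fin s → T => ∑ j : Fin s, 2 ^ (j : ℕ) * w (u j) = d).card := by
    have h1 := coeff_pow_parity (fun t => w t + K) s D
    have h2 : (univ.filter fun u : Fin s → T => ∑ j : Fin s, 2 ^ (j : ℕ) * (w (u j) + K) = D)
        = (univ.filter fun u : Fin s → T => ∑ j : Fin s, 2 ^ (j : ℕ) * w (u j) = d) := by
      apply filter_congr
      intro u _
      have h3 : ∑ j : Fin s, 2 ^ (j : ℕ) = M := by
        rw [hM, Fin.sum_univ_eq_sum_range (fun j => 2 ^ j) s, Nat.geomSum_eq (le_refl 2)]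
        simp
      simp only [mul_add, sum_add_distrib]
      rw [← sum_mul, h3, hD, mul_comm M K]
      omega
    rw [h2] at h1
    rw [hcoeff, ← ZMod.natCast_eq_one_iff_odd, ← ZMod.natCast_eq_one_iff_odd, ← h1]
  have hbound : ∀ k, S.coeff k < 2 ^ e := by
    intro k
    refine lt_of_le_of_lt (coeff_le_eval_one S k) ?_
    have : S.eval 1 = ∑ m ∈ range (M + 1), (Fintype.card T) ^ m := by
      simp [hS, hg, eval_finsetSum]
    rw [this, hM1]
    have := geom_le (Fintype.card T) (2 ^ s)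
    omega
  obtain ⟨low, q, hlow, hev⟩ := eval_digit S e D he1 hbound
  set G : ℤ := ∑ t : T, (2 : ℤ) ^ (e * (w t + K)) with hG
  have hSev : ((S.eval (2 ^ e) : ℕ) : ℤ) = ∑ m ∈ range (M + 1), G ^ m := by
    simp [hS, hg, hG, eval_finsetSum, pow_mul]
  have hdiv : (2 : ℤ) ^ (e * D + 1) ∣ G ^ (M + 1) := by
    have h1 : (2 : ℤ) ^ (e * K) ∣ G := by
      apply dvd_sum
      intro t _
      exact pow_dvd_pow _ (Nat.mul_le_mul_left _ (by omega))
    refine dvd_trans ?_ (pow_dvd_pow_of_dvd h1 (M + 1))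
    rw [← pow_mul]
    apply pow_dvd_pow
    have h2 : D + 1 ≤ K * (M + 1) := by rw [mul_add]; omega
    calc e * D + 1 ≤ e * D + e := by omega
      _ = e * (D + 1) := by ring
      _ ≤ e * (K * (M + 1)) := Nat.mul_le_mul_left _ h2
      _ = e * K * (M + 1) := by ring
  have hgeom : (1 - G) * ∑ m ∈ range (M + 1), G ^ m = 1 - G ^ (M + 1) := mul_neg_geom_sum G _
  set y0 : ℤ := (low : ℤ) + 2 ^ (e * D) * ((S.coeff D % 2 : ℕ) : ℤ) with hy0
  have hy0S : ∑ m ∈ range (M + 1), G ^ m = y0 + 2 ^ (e * D + 1) * (q : ℤ) := by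
    rw [← hSev, hev]; push_cast [hy0]; ring
  have hy0d : (2 : ℤ) ^ (e * D + 1) ∣ (1 - G) * y0 - 1 := by
    have : (1 - G) * y0 - 1 = -G ^ (M + 1) - 2 ^ (e * D + 1) * ((1 - G) * q) := by
      rw [hy0S] at hgeom
      linear_combination hgeom
    rw [this]
    exact dvd_sub (dvd_neg.2 hdiv) (dvd_mul_right _ _)
  have hlow' : (low : ℤ) < 2 ^ (e * D) := by exact_mod_cast hlow
  have hlow0 : (0 : ℤ) ≤ low := Int.natCast_nonneg _
  have hP : (0 : ℤ) < 2 ^ (e * D) := by positivity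
  rw [← hpar]
  constructor
  · rintro ⟨y, h1, h2, h3⟩
    by_contra hodd
    have hev' : S.coeff D % 2 = 0 := by rw [Nat.odd_iff] at hodd; omega
    have hy0' : y0 = low := by rw [hy0, hev']; simp
    have h4 : (2 : ℤ) ^ (e * D + 1) ∣ y - y0 := by
      have : y - y0 = y0 * ((1 - G) * y - 1) - y * ((1 - G) * y0 - 1) := by ring
      rw [this]
      exact dvd_sub (dvd_mul_of_dvd_right h1 _) (dvd_mul_of_dvd_right hy0d _)
    have h5 := Int.le_of_dvd (by omega) h4
    omega
  · intro hodd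
    have hev' : S.coeff D % 2 = 1 := Nat.odd_iff.1 hodd
    have hy0' : y0 = low + 2 ^ (e * D) := by rw [hy0, hev']; simp
    refine ⟨y0, hy0d, by omega, ?_⟩
    rw [pow_succ]; omega

end Pool.Agent.Lib.MP_1ebeae_al
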