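import Mathlib

/-!
Counter programs: every primitive recursive function is computed by a while program on
registers, and there is a program whose halting set is the halting set of Mathlib.
-/

namespace Pool.Agent.Lib.MP_1ebeae_al

open Function

/-- While programs on registers indexed by naturals. -/
inductive Prog : Type
  | inc (i : ℕ) : Prog
  | dec (i : ℕ) : Prog
  | seq (p q : Prog) : Prog
  | loop (i : ℕ) (p : Prog) : Prog

/-- Big step semantics. -/
inductive Exec : Prog → (ℕ → ℕ) → (ℕ → ℕ) → Prop
  | inc (i : ℕ) (σ : ℕ → ℕ) : Exec (.inc i) σ (update σ i (σ i + 1))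
  | dec (i : ℕ) (σ : ℕ → ℕ) : Exec (.dec i) σ (update σ i (σ i - 1))
  | seq {p q : Prog} {σ σ' σ'' : ℕ → ℕ} : Exec p σ σ' → Exec q σ' σ'' → Exec (.seq p q) σ σ''
  | loop0 {i : ℕ} {p : Prog} {σ : ℕ → ℕ} : σ i = 0 → Exec (.loop i p) σ σ
  | loopS {i : ℕ} {p : Prog} {σ σ' σ'' : ℕ → ℕ} :
      σ i ≠ 0 → Exec p σ σ' → Exec (.loop i p) σ' σ'' → Exec (.loop i p) σ σ''

theorem Exec.of_eq {p : Prog} {σ σ' σ'' : ℕ → ℕ} (h : Exec p σ σ') (e : σ' = σ'') :
    Exec p σ σ'' := e ▸ h

/-- A counted loop: the states along the loop are given by `S`. -/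
theorem Exec.count {i : ℕ} {p : Prog} (S : ℕ → ℕ → ℕ) (N : ℕ) (h0 : S N i = 0)
    (h : ∀ m < N, S m i ≠ 0 ∧ Exec p (S m) (S (m + 1))) : Exec (.loop i p) (S 0) (S N) := by
  suffices ∀ d m, m + d = N → Exec (.loop i p) (S m) (S N) from this N 0 (by omega)
  intro d
  induction d with
  | zero => intro m hm; obtain rfl : m = N := by omega
            exact .loop0 h0
  | succ d ih =>
    intro m hm
    exact .loopS (h m (by omega)).1 (h m (by omega)).2 (ih (m + 1) (by omega))

/-- Empty register `i`. -/
def clear (i : ℕ) : Prog := .loop i (.dec i)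

theorem exec_clear (i : ℕ) (σ : ℕ → ℕ) : Exec (clear i) σ (update σ i 0) := by
  have := Exec.count (i := i) (p := .dec i) (fun m => update σ i (σ i - m)) (σ i) (by simp)
    (fun m hm => ⟨by simp; omega, (Exec.dec i _).of_eq (by simp [Nat.sub_sub])⟩)
  simpa [clear] using this

/-- Move register `i` onto register `j`. -/
def move (i j : ℕ) : Prog := .loop i (.seq (.dec i) (.inc j))

theorem exec_move (i j : ℕ) (hij : i ≠ j) (σ : ℕ → ℕ) :
    Exec (move i j) σ (update (update σ i 0) j (σ j + σ i)) := by
  have := Exec.count (i := i) (p := .seq (.dec i) (.inc j))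
    (fun m => update (update σ i (σ i - m)) j (σ j + m)) (σ i) (by simp [hij])
    (fun m hm => ⟨by simp [hij]; omega, (Exec.seq (.dec i _) (.inc j _)).of_eq (by
      funext k
      simp only [update_apply]
      split_ifs <;> simp_all <;> omega)⟩)
  simpa [move] using this

/-- Move register `i` onto both `j` and `k`. -/
def move2 (i j k : ℕ) : Prog := .loop i (.seq (.dec i) (.seq (.inc j) (.inc k)))

theorem exec_move2 (i j k : ℕ) (hij : i ≠ j) (hik : i ≠ k) (hjk : j ≠ k) (σ : ℕ → ℕ) :
    Exec (move2 i j k) σ (update (update (update σ i 0) j (σ j + σ i)) k (σ k + σ i)) := by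
  have := Exec.count (i := i) (p := .seq (.dec i) (.seq (.inc j) (.inc k)))
    (fun m => update (update (update σ i (σ i - m)) j (σ j + m)) k (σ k + m)) (σ i)
    (by simp [hij, hik])
    (fun m hm => ⟨by simp [hij, hik]; omega,
      (Exec.seq (.dec i _) (.seq (.inc j _) (.inc k _))).of_eq (by
      funext l
      simp only [update_apply]
      split_ifs <;> simp_all <;> omega)⟩)
  simpa [move2] using this

/-- Add register `i` to register `o` using the empty scratch register `b`. -/
def copy (i o b : ℕ) : Prog := .seq (move2 i o b) (move b i)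

theorem exec_copy (i o b : ℕ) (hio : i ≠ o) (hib : i ≠ b) (hob : o ≠ b) (σ : ℕ → ℕ)
    (hb : σ b = 0) : Exec (copy i o b) σ (update σ o (σ o + σ i)) := by
  refine (Exec.seq (exec_move2 i o b hio hib hob σ) (exec_move b i hib.symm _)).of_eq ?_
  funext l
  simp only [update_apply]
  split_ifs <;> simp_all

/-- `f` is computed by programs, for every allocation of registers. -/
def Computes {n : ℕ} (f : List.Vector ℕ n → ℕ) : Prop :=
  ∀ (inp : Fin n → ℕ) (o b : ℕ), (∀ i, inp i < b) → o < b → (∀ i, inp i ≠ o) →
    ∃ P : Prog, ∀ σ : ℕ → ℕ, (∀ j, b ≤ j → σ j = 0) →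
      Exec P σ (update σ o (σ o + f (List.Vector.ofFn fun i => σ (inp i))))

theorem computes_of_prim {n : ℕ} {f : List.Vector ℕ n → ℕ} (hf : Nat.Primrec' f) :
    Computes f := by
  induction hf with
  | zero =>
    intro inp o b _ _ _
    exact ⟨.seq (.inc o) (.dec o), fun σ _ =>
      (Exec.seq (.inc o σ) (.dec o _)).of_eq (by simp)⟩
  | succ =>
    intro inp o b h1 h2 h3
    refine ⟨.seq (copy (inp 0) o b) (.inc o), fun σ hσ =>
      (Exec.seq (exec_copy _ _ _ (h3 0) (h1 0).ne h2.ne σ (hσ b le_rfl)) (.inc o _)).of_eq ?_⟩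
    simp [List.Vector.head_ofFn, add_assoc]
  | get i =>
    intro inp o b h1 h2 h3
    refine ⟨copy (inp i) o b, fun σ hσ =>
      (exec_copy _ _ _ (h3 i) (h1 i).ne h2.ne σ (hσ b le_rfl)).of_eq ?_⟩
    simp
  | @comp m n f g _ _ ihf ihg =>
    intro inp o b h1 h2 h3
    -- compute the arguments
    have hargs : ∀ k ≤ n, ∃ P : Prog, ∀ σ : ℕ → ℕ, (∀ j, b ≤ j → σ j = 0) →
        Exec P σ (fun j => if h : b ≤ j ∧ j < b + k ∧ j - b < n then
          g ⟨j - b, h.2.2⟩ (List.Vector.ofFn fun i => σ (inp i)) else σ j) := by
      intro k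
      induction k with
      | zero =>
        intro _
        refine ⟨.seq (.inc o) (.dec o), fun σ _ =>
          (Exec.seq (.inc o σ) (.dec o _)).of_eq ?_⟩
        funext j
        rw [dif_neg (by omega)]
        simp
      | succ k ih =>
        intro hk
        obtain ⟨P, hP⟩ := ih (by omega)
        obtain ⟨Q, hQ⟩ := ihg ⟨k, hk⟩ inp (b + k) (b + n) (fun i => by have := h1 i; omega)
          (by omega) (fun i => by have := h1 i; omega)
        refine ⟨.seq P Q, fun σ hσ => (Exec.seq (hP σ hσ) (hQ _ ?_)).of_eq ?_⟩
        · intro j hj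
          rw [dif_neg (by omega)]
          exact hσ j (by omega)
        · funext j
          have e1 : (List.Vector.ofFn fun i => (fun j => if h : b ≤ j ∧ j < b + k ∧ j - b < n then
              g ⟨j - b, h.2.2⟩ (List.Vector.ofFn fun i => σ (inp i)) else σ j) (inp i))
              = List.Vector.ofFn fun i => σ (inp i) := by
            congr 1
            funext i
            have := h1 i
            simp only
            rw [dif_neg (by omega)]
          rw [e1]
          by_cases hj : j = b + k
          · subst hj
            rw [update_self, dif_neg (by omega), dif_pos (by omega), hσ _ (by omega)]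
            simp
          · rw [update_of_ne hj]
            by_cases hj2 : b ≤ j ∧ j < b + k ∧ j - b < n
            · rw [dif_pos hj2, dif_pos (by omega)]
            · rw [dif_neg hj2, dif_neg (by omega)]
    have hclear : ∀ k, ∃ P : Prog, ∀ σ : ℕ → ℕ,
        Exec P σ (fun j => if b ≤ j ∧ j < b + k then 0 else σ j) := by
      intro k
      induction k with
      | zero =>
        refine ⟨.seq (.inc o) (.dec o), fun σ =>
          (Exec.seq (.inc o σ) (.dec o _)).of_eq ?_⟩
        funext j
        rw [if_neg (by omega)]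
        simp
      | succ k ih =>
        obtain ⟨P, hP⟩ := ih
        refine ⟨.seq P (clear (b + k)), fun σ => (Exec.seq (hP σ) (exec_clear _ _)).of_eq ?_⟩
        funext j
        simp only [update_apply]
        split_ifs <;> first | rfl | omega
    obtain ⟨P, hP⟩ := hargs n le_rfl
    obtain ⟨Q, hQ⟩ := ihf (fun i => b + i) o (b + n) (fun i => by have := i.2; omega)
      (by omega) (fun i => by omega)
    obtain ⟨R, hR⟩ := hclear n
    refine ⟨.seq P (.seq Q R), fun σ hσ =>
      (Exec.seq (hP σ hσ) (.seq (hQ _ ?_) (hR _))).of_eq ?_⟩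
    · intro j hj
      rw [dif_neg (by omega)]
      exact hσ j (by omega)
    · have e1 : (List.Vector.ofFn fun i : Fin n =>
          (fun j => if h : b ≤ j ∧ j < b + n ∧ j - b < n then
            g ⟨j - b, h.2.2⟩ (List.Vector.ofFn fun i => σ (inp i)) else σ j) (b + i))
          = List.Vector.ofFn fun i => g i (List.Vector.ofFn fun i => σ (inp i)) := by
        congr 1
        funext i
        have := i.2
        simp only
        rw [dif_pos (by omega)]
        congr 2
        omega
      rw [e1]
      funext j
      by_cases hj : j = o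
      · subst hj
        rw [if_neg (by omega), update_self, update_self, dif_neg (by omega)]
      · rw [update_of_ne hj, update_of_ne hj]
        by_cases hj2 : b ≤ j ∧ j < b + n
        · rw [if_pos hj2, hσ j hj2.1]
        · rw [if_neg hj2, dif_neg (by omega)]
  | @prec n f g _ _ ihf ihg =>
    intro inp o b h1 h2 h3
    obtain ⟨F, hF⟩ := ihf (fun i => inp i.succ) (b + 2) (b + 4)
      (fun i => by have := h1 i.succ; omega) (by omega) (fun i => by have := h1 i.succ; omega)
    obtain ⟨G, hG⟩ := ihg (Fin.cons (b + 1) (Fin.cons (b + 2) fun i => inp i.succ)) (b + 3) (b + 4)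
      (fun i => by
        refine Fin.cases ?_ (fun i => Fin.cases ?_ (fun i => ?_) i) i
        · simp
        · simp
        · have := h1 i.succ; simp; omega)
      (by omega)
      (fun i => by
        refine Fin.cases ?_ (fun i => Fin.cases ?_ (fun i => ?_) i) i
        · simp
        · simp
        · have := h1 i.succ; simp; omega)
    refine ⟨.seq (copy (inp 0) b (b + 4)) (.seq F (.seq
      (.loop b (.seq (.dec b) (.seq G (.seq (clear (b + 2)) (.seq (move (b + 3) (b + 2))
        (.inc (b + 1))))))) (.seq (move (b + 2) o) (clear (b + 1))))), fun σ hσ => ?_⟩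
    set tl : List.Vector ℕ n := List.Vector.ofFn fun i => σ (inp i.succ) with htl
    set R : ℕ → ℕ := fun y => Nat.rec (f tl) (fun y IH => g (y ::ᵥ IH ::ᵥ tl)) y with hR
    set x := σ (inp 0) with hx
    have hinp : ∀ (i : Fin (n + 1)) (c : ℕ), inp i ≠ b + c := fun i c => by have := h1 i; omega
    have hinp0 : ∀ (i : Fin (n + 1)), inp i ≠ b := fun i => (h1 i).ne
    let S : ℕ → ℕ → ℕ := fun m => update (update (update σ b (x - m)) (b + 1) m) (b + 2) (R m)
    have s1 : Exec (copy (inp 0) b (b + 4)) σ (update σ b x) :=
      (exec_copy _ _ _ (hinp0 0) (hinp 0 4) (by omega) σ (hσ _ (by omega))).of_eq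
        (by rw [hσ b le_rfl, zero_add])
    have s2 : Exec F (update σ b x) (S 0) := by
      refine (hF _ fun j hj => ?_).of_eq ?_
      · rw [update_of_ne (by omega), hσ j (by omega)]
      · funext j
        simp only [S, update_apply, hinp0, if_false, ← htl, hR]
        have := hσ (b + 1) (by omega)
        have := hσ (b + 2) (by omega)
        split_ifs <;> simp_all
    have s3 : Exec (.loop b (.seq (.dec b) (.seq G (.seq (clear (b + 2))
        (.seq (move (b + 3) (b + 2)) (.inc (b + 1))))))) (S 0) (S x) := by
      refine Exec.count S x (by simp [S]) fun m hm => ⟨by simp [S]; omega, ?_⟩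
      refine (Exec.seq (.dec b _) (.seq (hG _ fun j hj => ?_) (.seq (exec_clear _ _)
        (.seq (exec_move _ _ (by omega) _) (.inc _ _))))).of_eq ?_
      · simp only [S]
        rw [update_of_ne (by omega), update_of_ne (by omega), update_of_ne (by omega),
          update_of_ne (by omega), hσ j (by omega)]
      · have e1 : (List.Vector.ofFn fun i => update (S m) b (S m b - 1)
            ((Fin.cons (b + 1) (Fin.cons (b + 2) fun i => inp i.succ) : Fin (n + 2) → ℕ) i))
            = m ::ᵥ R m ::ᵥ tl := by
          apply List.Vector.ext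
          intro i
          refine Fin.cases ?_ (fun i => Fin.cases ?_ (fun i => ?_) i) i
          · simp [S]
          · rw [List.Vector.get_cons_succ]
            simp [S]
          · simp [S, htl, hinp, hinp0]
        rw [e1]
        have e2 : R (m + 1) = g (m ::ᵥ R m ::ᵥ tl) := rfl
        rw [← e2]
        have := hσ (b + 3) (by omega)
        funext j
        simp only [S, update_apply]
        generalize R (m + 1) = r1
        generalize R m = r0
        split_ifs <;> first | omega | simp_all
    refine (Exec.seq s1 (.seq s2 (.seq s3 (.seq (exec_move _ _ (by omega) _)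
      (exec_clear _ _))))).of_eq ?_
    have e3 : (List.Vector.ofFn fun i => σ (inp i)).tail = tl := by
      rw [List.Vector.tail_ofFn]
    have e4 : (List.Vector.ofFn fun i => σ (inp i)).head = x := by
      rw [List.Vector.head_ofFn]
    simp only [e3, e4]
    have := hσ (b + 1) (by omega)
    have := hσ (b + 2) (by omega)
    have := hσ b (by omega)
    funext j
    simp only [S, update_apply]
    split_ifs <;> simp_all

end Pool.Agent.Lib.MP_1ebeae_al
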