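import Pool.Agent.Lib.MP_1ebeae_al.Wreath

/-!
The words, their computability, and the reduction.
-/

namespace Pool.Agent.Lib.MP_1ebeae_al

open HNNExtension

/-- The word of an expression; `none` is the variable, `some 0` is `a`, `some 1` is `t`. -/
def GE.word (n : ℕ) : GE → List (Option (Fin 3) × Bool)
  | .x => [(none, true)]
  | .a => [(some 0, true)]
  | .t => [(some 1, true)]
  | .apow => List.replicate n (some 0, true)
  | .mul e f => e.word n ++ f.word n
  | .inv e => FreeGroup.invRev (e.word n)

/-- The word of `chain`; `some 2` is `z`. -/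
def chainWord (n : ℕ) : List GE → List (Option (Fin 3) × Bool)
  | [] => GE.u0.word n
  | e :: L => e.word n ++ (([(some 2, true)] ++ chainWord n L) ++ [(some 2, false)])

theorem primrec_replicate {α : Type} [Primcodable α] (c : α) :
    Primrec fun n : ℕ => List.replicate n c := by
  refine (Primrec.nat_rec₁ [] (f := fun _ l => c :: l)
    (Primrec.list_cons.comp (Primrec.const c) Primrec.snd).to₂).of_eq fun n => ?_
  induction n with
  | zero => rfl
  | succ n ih => rw [List.replicate_succ, ← ih]

theorem primrec_word (e : GE) : Primrec fun n => e.word n := by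
  induction e with
  | apow => exact primrec_replicate _
  | mul e f ihe ihf => exact Primrec.list_append.comp ihe ihf
  | inv e ih =>
    exact Primrec.list_reverse.comp (Primrec.list_map ih
      (Primrec.pair (Primrec.fst.comp Primrec.snd)
        (Primrec.not.comp (Primrec.snd.comp Primrec.snd))).to₂)
  | _ => exact Primrec.const _

theorem primrec_chainWord (L : List GE) : Primrec fun n => chainWord n L := by
  induction L with
  | nil => exact primrec_word _
  | cons e L ih =>
    exact Primrec.list_append.comp (primrec_word e) (Primrec.list_append.comp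
      (Primrec.list_append.comp (Primrec.const _) ih) (Primrec.const _))

theorem lift_word {Γ : Type} [Group Γ] (F : Option (Fin 3) → Γ) (n : ℕ) (e : GE) :
    FreeGroup.lift F (FreeGroup.mk (e.word n))
      = GE.ev (F none) (F (some 0)) (F (some 1)) n e := by
  induction e with
  | mul e f ihe ihf => rw [GE.word, ← FreeGroup.mul_mk, map_mul, ihe, ihf, GE.ev]
  | inv e ih => rw [GE.word, ← FreeGroup.inv_mk, map_inv, ih, GE.ev]
  | _ => simp [GE.word, GE.ev]

theorem lift_chainWord {Γ : Type} [Group Γ] (F : Option (Fin 3) → Γ) (n : ℕ) (L : List GE) :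
    FreeGroup.lift F (FreeGroup.mk (chainWord n L))
      = chain (F none) (F (some 0)) (F (some 1)) (F (some 2)) n L := by
  induction L with
  | nil => exact lift_word F n _
  | cons e L ih =>
    rw [chainWord, ← FreeGroup.mul_mk, ← FreeGroup.mul_mk, ← FreeGroup.mul_mk, map_mul, map_mul,
      map_mul, lift_word, ih, chain]
    simp

/-- The Baumslag-Gersten relator, in a free group of rank three. -/
def rel : FreeGroup (Fin 3) :=
  FreeGroup.mk [(1, true), (0, true), (1, false), (0, true), (1, true), (0, false), (1, false),
    (0, false), (0, false)]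

theorem lift_rel {Γ : Type} [Group Γ] (F : Fin 3 → Γ) :
    FreeGroup.lift F rel = 1 ↔ (F 1 * F 0 * (F 1)⁻¹) * F 0 * (F 1 * F 0 * (F 1)⁻¹)⁻¹ = F 0 ^ 2 := by
  rw [← mul_inv_eq_one (b := F 0 ^ 2)]
  simp [rel, mul_assoc, pow_two]

theorem reduction (U : Tm) (n : ℕ) :
    (∃ τ y m : ℤ, Ev n τ y U m) ↔
      ∃ g : PresentedGroup ({rel} : Set (FreeGroup (Fin 3))),
        FreeGroup.lift (fun o : Option (Fin 3) => o.elim g PresentedGroup.of)
          (FreeGroup.mk (chainWord n (.u0 :: U.sys))) = 1 := by
  simp only [lift_chainWord, Option.elim]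
  constructor
  · rintro ⟨τ, y, m, h⟩
    have h1 : FreeGroup.lift (PresentedGroup.of (rels := ({rel} : Set (FreeGroup (Fin 3))))) rel
        = 1 := by
      have : FreeGroup.lift (PresentedGroup.of (rels := ({rel} : Set (FreeGroup (Fin 3)))))
          = PresentedGroup.mk _ := by
        ext i
        simp [PresentedGroup.of]
      rw [this]
      exact PresentedGroup.one_of_mem rfl
    obtain ⟨h2, h3⟩ := sound ((lift_rel _).1 h1) n U τ y m h
    refine ⟨_, chain_eq_one _ _ _ _ n _ h2 fun e he => ?_⟩
    rcases List.mem_cons.1 he with rfl | he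
    · exact h2
    · exact h3 e he
  · rintro ⟨g, hg⟩
    let F : Fin 3 → Wr HH := ![Wr.incl (of ⟨1, 0⟩), Wr.incl t, Wr.z]
    have hF : ∀ r ∈ ({rel} : Set (FreeGroup (Fin 3))), FreeGroup.lift F r = 1 := by
      rintro r rfl
      rw [lift_rel]
      have h1 := t_conj 1
      rw [Int.cast_one] at h1
      simp only [F, Matrix.cons_val_one, Matrix.cons_val_zero, ← map_mul, ← map_inv, ← map_pow, h1]
      congr 2
      ext
      · simp [pow_two]
        norm_num
      · simp [pow_two]
    have h1 := congrArg (PresentedGroup.toGroup hF) hg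
    rw [map_chain, map_one] at h1
    simp only [PresentedGroup.toGroup.of] at h1
    have h2 : PresentedGroup.toGroup hF g ∈ Wr.fs := by
      refine PresentedGroup.generated_by _ (Wr.fs.comap (PresentedGroup.toGroup hF)) (fun i => ?_) g
      rw [Subgroup.mem_comap, PresentedGroup.toGroup.of]
      fin_cases i
      · exact Wr.incl_mem _
      · exact Wr.incl_mem _
      · exact Wr.z_mem
    exact complete _ n U (system_of_chain _ _ _ n h2 U.sys (deg_sys U) h1)

theorem undecidable :
    ¬ ComputablePred fun w : List (Option (Fin 3) × Bool) =>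
      ∃ g : PresentedGroup ({rel} : Set (FreeGroup (Fin 3))),
        FreeGroup.lift (fun o : Option (Fin 3) => o.elim g PresentedGroup.of)
          (FreeGroup.mk w) = 1 := by
  obtain ⟨U, hU⟩ := exists_term_undecidable
  exact fun h => hU (ComputablePred.computable_of_manyOneReducible
    ⟨fun n => chainWord n (.u0 :: U.sys), (primrec_chainWord _).to_comp, reduction U⟩ h)

end Pool.Agent.Lib.MP_1ebeae_al
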