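import Mathlib

/-!
The HNN extension of `ℚ ⋊ ℤ` (a group containing `BS(1,2)`) whose stable letter conjugates
`a` to `b`.  It is a model of the Baumslag-Gersten relation.
-/

namespace Pool.Agent.Lib.MP_1ebeae_al

open HNNExtension HNNExtension.NormalWord

/-- The group `ℚ ⋊ ℤ`, the generator of `ℤ` acting by doubling. -/
@[ext] structure BS where
  u : ℚ
  k : ℤ

namespace BS

instance : Mul BS := ⟨fun x y => ⟨x.u + 2 ^ x.k * y.u, x.k + y.k⟩⟩
instance : One BS := ⟨⟨0, 0⟩⟩
instance : Inv BS := ⟨fun x => ⟨-(2 ^ (-x.k) * x.u), -x.k⟩⟩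

@[simp] theorem mul_u (x y : BS) : (x * y).u = x.u + 2 ^ x.k * y.u := rfl
@[simp] theorem mul_k (x y : BS) : (x * y).k = x.k + y.k := rfl
@[simp] theorem one_u : (1 : BS).u = 0 := rfl
@[simp] theorem one_k : (1 : BS).k = 0 := rfl
@[simp] theorem inv_u (x : BS) : (x⁻¹).u = -(2 ^ (-x.k) * x.u) := rfl
@[simp] theorem inv_k (x : BS) : (x⁻¹).k = -x.k := rfl

instance : Group BS :=
  Group.ofLeftAxioms
    (fun x y z => by
      ext
      · simp only [mul_u, mul_k]
        rw [zpow_add₀ (by norm_num)]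
        ring
      · simp [add_assoc])
    (fun x => by ext <;> simp)
    (fun x => by ext <;> simp)

/-- `n ↦ a ^ n` -/
def ha : Multiplicative ℤ →* BS where
  toFun n := ⟨n.toAdd, 0⟩
  map_one' := by ext <;> simp
  map_mul' x y := by ext <;> simp

/-- `n ↦ b ^ n` -/
def hb : Multiplicative ℤ →* BS where
  toFun n := ⟨0, n.toAdd⟩
  map_one' := by ext <;> simp
  map_mul' x y := by ext <;> simp

theorem ha_inj : Function.Injective ha := fun x y h => by
  have := congrArg BS.u h
  simpa [ha] using this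

theorem hb_inj : Function.Injective hb := fun x y h => by
  have := congrArg BS.k h
  simpa [hb] using this

theorem mem_ha (x : BS) : x ∈ ha.range ↔ x.k = 0 ∧ ∃ n : ℤ, x.u = n := by
  constructor
  · rintro ⟨n, rfl⟩
    exact ⟨rfl, n.toAdd, rfl⟩
  · rintro ⟨h, n, hn⟩
    exact ⟨Multiplicative.ofAdd n, BS.ext hn.symm h.symm⟩

theorem mem_hb (x : BS) : x ∈ hb.range ↔ x.u = 0 := by
  constructor
  · rintro ⟨n, rfl⟩
    rfl
  · intro h
    exact ⟨Multiplicative.ofAdd x.k, BS.ext h.symm rfl⟩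

/-- The isomorphism `a ^ n ↦ b ^ n`. -/
noncomputable def phi : ha.range ≃* hb.range :=
  (MonoidHom.ofInjective ha_inj).symm.trans (MonoidHom.ofInjective hb_inj)

theorem phi_apply (n : Multiplicative ℤ) : (phi ⟨ha n, n, rfl⟩ : BS) = hb n := by
  have : (MonoidHom.ofInjective ha_inj).symm ⟨ha n, n, rfl⟩ = n :=
    (MulEquiv.symm_apply_eq _).2 rfl
  simp [phi, this, MonoidHom.ofInjective_apply]

end BS

/-- The HNN extension. -/
abbrev HH : Type := HNNExtension BS BS.ha.range BS.hb.range BS.phi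

theorem t_conj (n : ℤ) : (t * of ⟨n, 0⟩ * t⁻¹ : HH) = of ⟨0, n⟩ := by
  have := equiv_eq_conj (φ := BS.phi) ⟨BS.ha (Multiplicative.ofAdd n), _, rfl⟩
  rw [BS.phi_apply] at this
  exact this.symm

section General

variable {G : Type} [Group G] {A B : Subgroup G} (φ : A ≃* B)

/-- Multiply the last letter of a word on the right. -/
def mulLast (c : G) : List (ℤˣ × G) → List (ℤˣ × G)
  | [] => []
  | [p] => [(p.1, p.2 * c)]
  | p :: q :: l => p :: mulLast c (q :: l)

theorem mulLast_chain (c : G) (l : List (ℤˣ × G))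
    (h : l.IsChain fun a b => a.2 ∈ toSubgroup A B a.1 → a.1 = b.1) :
    (mulLast c l).IsChain fun a b => a.2 ∈ toSubgroup A B a.1 → a.1 = b.1 := by
  induction l with
  | nil => exact h
  | cons p l ih =>
    cases l with
    | nil => exact List.isChain_singleton _
    | cons q l =>
      rw [List.isChain_cons_cons] at h
      have h2 := ih h.2
      cases l with
      | nil => exact List.isChain_cons_cons.2 ⟨h.1, h2⟩
      | cons r l => exact List.isChain_cons_cons.2 ⟨h.1, h2⟩

theorem mulLast_prod (c : G) (p : ℤˣ × G) (l : List (ℤˣ × G)) :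
    ((mulLast c (p :: l)).map fun x => (t ^ (x.1 : ℤ) * of x.2 : HNNExtension G A B φ)).prod
      = ((p :: l).map fun x => (t ^ (x.1 : ℤ) * of x.2 : HNNExtension G A B φ)).prod * of c := by
  induction l generalizing p with
  | nil => simp [mulLast, mul_assoc]
  | cons q l ih =>
    rw [mulLast, List.map_cons, List.prod_cons, ih q]
    simp [mul_assoc]

theorem head_lemma (h : G) (p : ℤˣ × G) (l : List (ℤˣ × G))
    (hc : (p :: l).IsChain fun a b => a.2 ∈ toSubgroup A B a.1 → a.1 = b.1) (c c' : G)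
    (e : of c * (of h * ((p :: l).map fun x =>
        (t ^ (x.1 : ℤ) * of x.2 : HNNExtension G A B φ)).prod)
      = (of h * ((p :: l).map fun x =>
        (t ^ (x.1 : ℤ) * of x.2 : HNNExtension G A B φ)).prod) * of c') :
    h⁻¹ * c * h ∈ toSubgroup A B (-p.1) := by
  have := (ReducedWord.map_fst_eq_and_of_prod_eq φ
    (w₁ := ⟨c * h, p :: l, hc⟩) (w₂ := ⟨h, mulLast c' (p :: l), mulLast_chain c' _ hc⟩)
    (by simp only [ReducedWord.prod]; rw [mulLast_prod, map_mul, mul_assoc, e, mul_assoc])).2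
    p.1 (by simp)
  have h2 := inv_mem this
  simpa [mul_assoc] using h2

theorem exists_reduced (g : HNNExtension G A B φ) :
    ∃ w : ReducedWord G A B, w.prod φ = g := by
  obtain ⟨d⟩ := TransversalPair.nonempty G A B
  exact ⟨(NormalWord.equiv φ d g).toReducedWord, (NormalWord.equiv φ d).left_inv g⟩

end General

/-- An element conjugating `a` into the normal subgroup `ℚ` of the base lies in the base. -/
theorem mem_base_of_conj (g : HH) (q : ℚ) (e : g⁻¹ * of ⟨1, 0⟩ * g = of ⟨q, 0⟩) :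
    ∃ β : BS, g = of β := by
  obtain ⟨⟨h, l, hc⟩, rfl⟩ := exists_reduced BS.phi g
  cases l with
  | nil => exact ⟨h, by simp [ReducedWord.prod]⟩
  | cons p l =>
    exfalso
    simp only [ReducedWord.prod] at e
    have h1 := head_lemma BS.phi h p l hc ⟨1, 0⟩ ⟨q, 0⟩ (by rw [← e]; group)
    obtain ⟨u, h'⟩ := p
    have hu : (h⁻¹ * ⟨1, 0⟩ * h : BS).u = 2 ^ (-h.k) := by simp
    have hk : (h⁻¹ * ⟨1, 0⟩ * h : BS).k = 0 := by simp
    have hpos : (0 : ℚ) < 2 ^ (-h.k) := by positivity
    rcases Int.units_eq_one_or u with rfl | rfl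
    · rw [toSubgroup_neg_one, BS.mem_hb, hu] at h1
      exact hpos.ne' h1
    · rw [neg_neg, toSubgroup_one, BS.mem_ha] at h1
      obtain ⟨-, m, hm⟩ := h1
      have hm0 : m ≠ 0 := by
        rintro rfl
        rw [hu] at hm
        exact hpos.ne' (by simpa using hm)
      have h2 : (h⁻¹ * ⟨1, 0⟩ * h : BS) = ⟨m, 0⟩ := BS.ext hm hk
      set R : HH := (l.map fun x => (t ^ (x.1 : ℤ) * of x.2 : HH)).prod with hR
      have h3 : (of ⟨0, m⟩ : HH) * (of h' * R) = (of h' * R) * of ⟨q, 0⟩ := by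
        rw [← t_conj, ← h2, ← e]
        simp only [List.map_cons, List.prod_cons, ← hR, map_mul, map_inv, Units.val_neg,
          Units.val_one]
        group
      cases l with
      | nil =>
        have h4 : (⟨0, m⟩ : BS) * h' = h' * ⟨q, 0⟩ := by
          apply of_injective BS.phi
          simpa [hR] using h3
        have := congrArg BS.k h4
        simp at this
        exact hm0 this
      | cons p l =>
        rw [List.isChain_cons_cons] at hc
        have h4 := head_lemma BS.phi h' p l hc.2 ⟨0, m⟩ ⟨q, 0⟩ h3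
        obtain ⟨u, h''⟩ := p
        rcases Int.units_eq_one_or u with rfl | rfl
        · rw [toSubgroup_neg_one, BS.mem_hb] at h4
          have h5 : h'.u = 0 := by
            simp only [BS.mul_u, BS.inv_u, BS.mul_k, BS.inv_k, mul_zero, add_zero] at h4
            rw [zpow_add₀ (by norm_num)] at h4
            have h6 : (2 : ℚ) ^ (-h'.k) * ((2 ^ m - 1) * h'.u) = 0 := by linarith
            have h7 : (2 : ℚ) ^ m - 1 ≠ 0 := by
              rw [sub_ne_zero]
              exact fun h => hm0 ((zpow_eq_one_iff_right₀ (by norm_num) (by norm_num)).1 h)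
            rcases mul_eq_zero.1 h6 with h8 | h8
            · exact absurd h8 (by positivity)
            · exact (mul_eq_zero.1 h8).resolve_left h7
          have := hc.1 (by rw [toSubgroup_neg_one, BS.mem_hb]; exact h5)
          simp at this
        · rw [neg_neg, toSubgroup_one, BS.mem_ha] at h4
          have := h4.1
          simp at this
          exact hm0 this

/-- If `g⁻¹ a g` commutes with `a` then `g` lies in the base group. -/
theorem mem_base_of_comm (g : HH)
    (e : (g⁻¹ * of ⟨1, 0⟩ * g) * of ⟨1, 0⟩ * (g⁻¹ * of ⟨1, 0⟩ * g)⁻¹ * (of ⟨1, 0⟩)⁻¹ = 1) :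
    ∃ β : BS, g = of β := by
  set c : HH := g⁻¹ * of ⟨1, 0⟩ * g with hc
  have h1 : c⁻¹ * of ⟨1, 0⟩ * c = of ⟨1, 0⟩ := by
    rw [mul_inv_eq_one, mul_inv_eq_iff_eq_mul] at e
    rw [mul_assoc, ← e, inv_mul_cancel_left]
  obtain ⟨β, hβ⟩ := mem_base_of_conj c 1 h1
  have h2 : β⁻¹ * ⟨1, 0⟩ * β = ⟨1, 0⟩ := by
    apply of_injective BS.phi
    rw [← h1, hβ]
    simp [hβ] at h1 ⊢
  have h3 : β.k = 0 := by
    have h4 := congrArg BS.u h2
    have hu : (β⁻¹ * ⟨1, 0⟩ * β : BS).u = 2 ^ (-β.k) := by simp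
    rw [hu] at h4
    have := (zpow_eq_one_iff_right₀ (by norm_num) (by norm_num)).1 h4
    omega
  exact mem_base_of_conj g β.u (by rw [← hc, hβ, ← h3])

/-- Britton's lemma as an integrality test. -/
theorem int_of_mem_base (q : ℚ) (β : BS) (e : (t * of ⟨q, 0⟩ * t⁻¹ : HH) = of β) :
    ∃ m : ℤ, q = m := by
  by_contra hq
  have := ReducedWord.toList_eq_nil_of_mem_of_range BS.phi
    ⟨1, [(1, ⟨q, 0⟩), (-1, 1)], by
      rw [List.isChain_cons_cons]
      refine ⟨fun h => ?_, List.isChain_singleton _⟩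
      rw [toSubgroup_one, BS.mem_ha] at h
      exact absurd h.2 hq⟩
    ⟨β, by rw [← e]; simp [ReducedWord.prod]⟩
  simp at this

end Pool.Agent.Lib.MP_1ebeae_al
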