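import Pool.Agent.Lib.MP_1ebeae_al.Cell

/-!
Terms in two integer unknowns built from `+`, `-` and `u * 2 ^ v`.  It is undecidable whether
the unknowns can be chosen so that all subterms of a term are integers.
-/

namespace Pool.Agent.Lib.MP_1ebeae_al

open Finset

/-- Terms in the unknowns `y`, `τ` and the parameter `n`. -/
inductive Tm : Type
  | vy : Tm
  | vt : Tm
  | par : Tm
  | one : Tm
  | add (u v : Tm) : Tm
  | neg (u : Tm) : Tm
  | mp (u v : Tm) : Tm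

/-- All subterms of the term have integer values and the term has value `m`. -/
def Ev (n : ℕ) (τ y : ℤ) : Tm → ℤ → Prop
  | .vy, m => m = y
  | .vt, m => m = τ
  | .par, m => m = n
  | .one, m => m = 1
  | .add u v, m => ∃ a b, Ev n τ y u a ∧ Ev n τ y v b ∧ m = a + b
  | .neg u, m => ∃ a, Ev n τ y u a ∧ m = -a
  | .mp u v, m => ∃ a b, Ev n τ y u a ∧ Ev n τ y v b ∧ (m : ℚ) = a * 2 ^ b

/-- The function is the value of a term whenever `τ` is a natural number. -/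
def Rep (f : ℕ → ℕ → ℤ → ℤ) : Prop :=
  ∃ u : Tm, ∀ (n τ : ℕ) (y m : ℤ), Ev n τ y u m ↔ m = f n τ y

def RepN (g : ℕ → ℕ → ℕ) : Prop := Rep fun n τ _ => (g n τ : ℤ)

namespace Rep

theorem of_eq {f g : ℕ → ℕ → ℤ → ℤ} (h : Rep f) (e : ∀ n τ y, f n τ y = g n τ y) : Rep g := by
  obtain ⟨u, hu⟩ := h
  exact ⟨u, fun n τ y m => by rw [hu, e]⟩

theorem vy : Rep fun _ _ y => y := ⟨.vy, fun _ _ _ _ => Iff.rfl⟩
theorem vt : Rep fun _ τ _ => τ := ⟨.vt, fun _ _ _ _ => Iff.rfl⟩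
theorem par : Rep fun n _ _ => n := ⟨.par, fun _ _ _ _ => Iff.rfl⟩
theorem one : Rep fun _ _ _ => 1 := ⟨.one, fun _ _ _ _ => Iff.rfl⟩

theorem add {f g : ℕ → ℕ → ℤ → ℤ} (hf : Rep f) (hg : Rep g) :
    Rep fun n τ y => f n τ y + g n τ y := by
  obtain ⟨u, hu⟩ := hf
  obtain ⟨v, hv⟩ := hg
  exact ⟨.add u v, fun n τ y m => by simp [Ev, hu, hv]⟩

theorem neg {f : ℕ → ℕ → ℤ → ℤ} (hf : Rep f) : Rep fun n τ y => -f n τ y := by
  obtain ⟨u, hu⟩ := hf
  exact ⟨.neg u, fun n τ y m => by simp [Ev, hu]⟩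

theorem sub {f g : ℕ → ℕ → ℤ → ℤ} (hf : Rep f) (hg : Rep g) :
    Rep fun n τ y => f n τ y - g n τ y :=
  (hf.add hg.neg).of_eq fun _ _ _ => by ring

theorem zero : Rep fun _ _ _ => 0 := (one.sub one).of_eq fun _ _ _ => by ring

theorem cmul {f : ℕ → ℕ → ℤ → ℤ} (c : ℤ) (hf : Rep f) : Rep fun n τ y => c * f n τ y := by
  induction c using Int.induction_on with
  | zero => exact zero.of_eq fun _ _ _ => by ring
  | succ c ih => exact (ih.add hf).of_eq fun _ _ _ => by ring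
  | pred c ih => exact (ih.sub hf).of_eq fun _ _ _ => by ring

theorem const (c : ℤ) : Rep fun _ _ _ => c := (one.cmul c).of_eq fun _ _ _ => by ring

theorem mp {f : ℕ → ℕ → ℤ → ℤ} {g : ℕ → ℕ → ℕ} (hf : Rep f) (hg : RepN g) :
    Rep fun n τ y => f n τ y * 2 ^ g n τ := by
  obtain ⟨u, hu⟩ := hf
  obtain ⟨v, hv⟩ := hg
  refine ⟨.mp u v, fun n τ y m => ?_⟩
  simp only [Ev, hu, hv, exists_and_left, exists_eq_left, zpow_natCast]
  norm_cast

theorem two_pow {g : ℕ → ℕ → ℕ} (hg : RepN g) : Rep fun n τ _ => 2 ^ g n τ :=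
  (one.mp hg).of_eq fun _ _ _ => by ring

theorem sum {E : Type} (S : Finset E) {f : E → ℕ → ℕ → ℤ → ℤ} (hf : ∀ e, Rep (f e)) :
    Rep fun n τ y => ∑ e ∈ S, f e n τ y := by
  classical
  induction S using Finset.induction_on with
  | empty => exact zero.of_eq fun _ _ _ => by simp
  | insert e S he ih => exact ((hf e).add ih).of_eq fun _ _ _ => by rw [sum_insert he]

end Rep

namespace RepN

theorem of_eq {f g : ℕ → ℕ → ℕ} (h : RepN f) (e : ∀ n τ, f n τ = g n τ) : RepN g :=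
  Rep.of_eq h fun n τ _ => by rw [e]

theorem const (c : ℕ) : RepN fun _ _ => c := Rep.const c
theorem vt : RepN fun _ τ => τ := Rep.vt
theorem par : RepN fun n _ => n := Rep.par

theorem add {f g : ℕ → ℕ → ℕ} (hf : RepN f) (hg : RepN g) : RepN fun n τ => f n τ + g n τ :=
  (Rep.add hf hg).of_eq fun _ _ _ => by push_cast; ring

theorem mulc {f : ℕ → ℕ → ℕ} (hf : RepN f) (c : ℕ) : RepN fun n τ => f n τ * c :=
  (Rep.cmul c hf).of_eq fun _ _ _ => by push_cast; ring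

theorem mp {f g : ℕ → ℕ → ℕ} (hf : RepN f) (hg : RepN g) : RepN fun n τ => f n τ * 2 ^ g n τ :=
  (Rep.mp hf hg).of_eq fun _ _ _ => by push_cast; ring

theorem two_pow {g : ℕ → ℕ → ℕ} (hg : RepN g) : RepN fun n τ => 2 ^ g n τ :=
  ((const 1).mp hg).of_eq fun _ _ => by ring

theorem two_pow_pred {g : ℕ → ℕ → ℕ} (hg : RepN g) : RepN fun n τ => 2 ^ g n τ - 1 :=
  ((Rep.two_pow hg).sub Rep.one).of_eq fun _ _ _ => by
    rw [Nat.cast_sub Nat.one_le_two_pow]; push_cast; ring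

theorem sum {E : Type} (S : Finset E) {f : E → ℕ → ℕ → ℕ} (hf : ∀ e, RepN (f e)) :
    RepN fun n τ => ∑ e ∈ S, f e n τ :=
  (Rep.sum S hf).of_eq fun _ _ _ => by push_cast; rfl

end RepN

section

variable {C I : Type} [DecidableEq C] [Fintype C] [Fintype I] [DecidableEq I]

/-- All numbers in `tile_digit_iff` are values of terms. -/
theorem rep_tiles (o : I → ℕ → ℕ → ℕ) (F : (I → C) → C) (full : ℕ → ℕ → ℕ → C)
    (P s : ℕ → ℕ → ℕ) (D : C) (ho : ∀ i, RepN (o i)) (hP : RepN P) (hs : RepN s)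
    (hos : ∀ i n τ, o i n τ ≤ s n τ)
    (hmid : ∀ i c, RepN fun n τ => mid (full n τ) (P n τ) (o i n τ) c) :
    RepN (fun n τ => posV (fun i => o i n τ) (full n τ) (P n τ) (s n τ) D) ∧
    Rep fun n τ y => (1 - ∑ t : I → C, (2 : ℤ) ^ (bigE C I (s n τ) *
      (totW (fun i => o i n τ) F (s n τ + P n τ + 1) t + 2 ^ bigK C I (P n τ) (s n τ)))) * y
        - 1 := by
  have hκ : RepN fun n τ => s n τ + P n τ + 1 := (hs.add hP).add (RepN.const 1)
  have hK : RepN fun n τ => bigK C I (P n τ) (s n τ) := hs.add (hκ.mulc _)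
  have hE : ∀ {f : ℕ → ℕ → ℕ}, RepN f → RepN fun n τ => bigE C I (s n τ) * f n τ := fun hf =>
    ((hf.mulc (Fintype.card (I → C) + 1)).mp hs).of_eq fun n τ => by rw [bigE]; ring
  have hW : ∀ t, RepN fun n τ => totW (fun i => o i n τ) F (s n τ + P n τ + 1) t := by
    intro t
    refine (RepN.sum univ (fun e : I × C => RepN.mp
      ((((ho e.1).two_pow).mulc (if F t = e.2 then 1 else 0)).add
        (RepN.const (if t e.1 = e.2 then 0 else 1)))
      (hκ.mulc (Fintype.equivFin (I × C) e : ℕ)))).of_eq fun n τ => ?_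
    exact sum_congr rfl fun e _ => by rw [chW, pow_mul, mul_comm]
  have hfin : ∀ i c, RepN fun n τ => fin D (o i n τ) c := by
    intro i c
    by_cases h : D = c
    · exact (ho i).two_pow_pred.of_eq fun n τ => by rw [fin, if_pos h]
    · exact (RepN.const 0).of_eq fun n τ => by rw [fin, if_neg h]
  have hD : ∀ i c, RepN fun n τ => chD (full n τ) (P n τ) (s n τ) D (o i n τ) c := by
    intro i c
    refine (Rep.sub (((RepN.const 1).add (hfin i c)).mp hs)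
      ((hmid i c).add (RepN.const 1))).of_eq fun n τ _ => ?_
    have := chD_add (full n τ) (P n τ) (s n τ) D (o i n τ) c (hos i n τ)
    beta_reduce
    rw [mul_comm, ← this]
    push_cast
    ring
  have htD : RepN fun n τ => totD (fun i => o i n τ) (full n τ) (P n τ) (s n τ) D
      (s n τ + P n τ + 1) := by
    refine (RepN.sum univ (fun e : I × C => RepN.mp (hD e.1 e.2)
      (hκ.mulc (Fintype.equivFin (I × C) e : ℕ)))).of_eq fun n τ => ?_
    exact sum_congr rfl fun e _ => by rw [pow_mul, mul_comm]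
  refine ⟨(hE (htD.add (hs.two_pow_pred.mp hK))).of_eq fun n τ => ?_, ?_⟩
  · rw [posV, mul_comm (2 ^ s n τ - 1)]
  · refine ((Rep.vy.sub (Rep.sum univ fun t : I → C =>
      Rep.vy.mp (hE ((hW t).add hK.two_pow)))).sub Rep.one).of_eq fun n τ y => ?_
    rw [← mul_sum]
    ring

end

theorem exists_int_two_zpow (b : ℤ) : (∃ m : ℤ, (m : ℚ) = 2 ^ b) ↔ 0 ≤ b := by
  constructor
  · rintro ⟨m, hm⟩
    by_contra hb
    have h1 : (2 : ℚ) ^ b < 1 := zpow_lt_one_of_neg₀ (by norm_num) (by omega)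
    have h2 : (0 : ℚ) < 2 ^ b := by positivity
    rw [← hm] at h1 h2
    have h3 : m < 1 := by exact_mod_cast h1
    have h4 : 0 < m := by exact_mod_cast h2
    omega
  · intro hb
    obtain ⟨k, rfl⟩ := Int.eq_ofNat_of_zero_le hb
    exact ⟨2 ^ k, by simp⟩

theorem exists_int_div (a : ℤ) (k : ℕ) :
    (∃ m : ℤ, (m : ℚ) = a * 2 ^ (-(k : ℤ))) ↔ (2 : ℤ) ^ k ∣ a := by
  have h : (2 : ℚ) ^ k ≠ 0 := by positivity
  constructor
  · rintro ⟨m, hm⟩
    refine ⟨m, ?_⟩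
    rw [zpow_neg, zpow_natCast, eq_mul_inv_iff_mul_eq₀ h] at hm
    rw [mul_comm]
    exact_mod_cast hm.symm
  · rintro ⟨m, rfl⟩
    refine ⟨m, ?_⟩
    rw [zpow_neg, zpow_natCast, eq_mul_inv_iff_mul_eq₀ h]
    push_cast
    ring

/-- One digit condition is the definedness of one term. -/
theorem exists_term (v : ℕ → ℕ → ℕ) (B : ℕ → ℕ → ℤ → ℤ) (hv : RepN v) (hB : Rep B) :
    ∃ U : Tm, ∀ n : ℕ, (∃ τ y m : ℤ, Ev n τ y U m) ↔
      ∃ (τ : ℕ) (y : ℤ), (2 : ℤ) ^ (v n τ + 1) ∣ B n τ y ∧ (2 : ℤ) ^ v n τ ≤ y ∧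
        y < (2 : ℤ) ^ (v n τ + 1) := by
  have hv1 : RepN fun n τ => v n τ + 1 := hv.add (RepN.const 1)
  obtain ⟨u1, h1⟩ := hB
  obtain ⟨u2, h2⟩ := Rep.neg hv1
  obtain ⟨u3, h3⟩ := Rep.vy.sub (Rep.two_pow hv)
  obtain ⟨u4, h4⟩ := ((Rep.two_pow hv1).sub Rep.one).sub Rep.vy
  refine ⟨.add (.mp .one .vt) (.add (.mp u1 u2) (.add (.mp .one u3) (.mp .one u4))), fun n => ?_⟩
  constructor
  · rintro ⟨τ, y, m, a1, _, ⟨_, _, rfl, rfl, e1⟩, ⟨a2, _, ⟨b1, b2, e2, e3, e4⟩,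
      ⟨a3, a4, ⟨_, b3, rfl, e5, e6⟩, ⟨_, b4, rfl, e7, e8⟩, -⟩, -⟩, -⟩
    obtain ⟨τ, rfl⟩ := Int.eq_ofNat_of_zero_le ((exists_int_two_zpow _).1 ⟨a1, by simpa using e1⟩)
    rw [h1] at e2
    rw [h2] at e3
    rw [h3] at e5
    rw [h4] at e7
    subst e2 e3 e5 e7
    have f1 := (exists_int_div _ _).1 ⟨a2, e4⟩
    have f2 := (exists_int_two_zpow _).1 ⟨a3, by simpa using e6⟩
    have f3 := (exists_int_two_zpow _).1 ⟨a4, by simpa using e8⟩
    exact ⟨τ, y, f1, by omega, by omega⟩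
  · rintro ⟨τ, y, f1, f2, f3⟩
    obtain ⟨a1, e1⟩ := (exists_int_two_zpow τ).2 (by omega)
    obtain ⟨a2, e2⟩ := (exists_int_div _ _).2 f1
    obtain ⟨a3, e3⟩ := (exists_int_two_zpow (y - 2 ^ v n τ)).2 (by omega)
    obtain ⟨a4, e4⟩ := (exists_int_two_zpow (2 ^ (v n τ + 1) - 1 - y)).2 (by omega)
    exact ⟨τ, y, _, a1, _, ⟨_, _, rfl, rfl, by simpa using e1⟩,
      ⟨a2, _, ⟨_, _, (h1 _ _ _ _).2 rfl, (h2 _ _ _ _).2 rfl, e2⟩,
        ⟨a3, a4, ⟨_, _, rfl, (h3 _ _ _ _).2 rfl, by simpa using e3⟩,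
          ⟨_, _, rfl, (h4 _ _ _ _).2 rfl, by simpa using e4⟩, rfl⟩, rfl⟩, rfl⟩

/-- Halting of a counter machine is the definedness of one term in two unknowns. -/
theorem exists_term_mach {Q ι : Type} [Fintype Q] [Fintype ι] [DecidableEq ι] (M : Mach Q ι) :
    ∃ U : Tm, ∀ n : ℕ, (∃ τ y m : ℤ, Ev n τ y U m) ↔ ∃ r, (M.run n r).1 = M.halt := by
  classical
  let l : ℕ → ℕ → ℕ := fun n τ => n + 1 + 2 ^ (τ + 1)
  let s : ℕ → ℕ → ℕ := fun n τ => (l n τ + 1) * 2 ^ (τ + 1)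
  have ht : RepN fun _ τ => τ + 1 := RepN.vt.add (RepN.const 1)
  have hl : RepN l := (RepN.par.add (RepN.const 1)).add ht.two_pow
  have hs : RepN s := (hl.add (RepN.const 1)).mp ht
  have hoff : ∀ i, RepN fun n τ => Mach.off (l n τ) i := by
    intro i
    fin_cases i
    · exact RepN.const 1
    · exact hl
    · exact hl.add (RepN.const 1)
    · exact hl.add (RepN.const 2)
  have hR : ∀ τ : ℕ, τ + 2 ≤ 2 ^ (τ + 1) := fun τ => Nat.lt_two_pow_self
  have hos : ∀ i n τ, Mach.off (l n τ) i ≤ s n τ := by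
    intro i n τ
    have h1 := Mach.off_le (l n τ) i
    have h2 : (l n τ + 1) * 2 ≤ (l n τ + 1) * 2 ^ (τ + 1) :=
      Nat.mul_le_mul_left _ (by have := hR τ; omega)
    simp only [s]
    omega
  obtain ⟨hv, hB⟩ := rep_tiles (fun i n τ => Mach.off (l n τ) i) M.rule
    (fun n τ => M.full n (l n τ)) (fun n τ => l n τ + 2) s M.dead hoff (hl.add (RepN.const 2)) hs
    hos (fun i c => by
      obtain ⟨α, β, γ, h⟩ := M.mid_eq c
      have hb : RepN fun n _ => (![0, n, n + 1, n + 2] i : ℕ) := by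
        fin_cases i
        · exact RepN.const 0
        · exact RepN.par
        · exact RepN.par.add (RepN.const 1)
        · exact RepN.par.add (RepN.const 2)
      exact (((Rep.const (α * (2 ^ (![0, 0, 1, 2] i : ℕ) - 1))).add
        (((Rep.two_pow hb).sub Rep.one).cmul β)).add
        (((Rep.two_pow (hoff i)).sub Rep.one).cmul γ)).of_eq fun n τ _ =>
          (h n (l n τ) (Nat.le_add_right _ _) i).symm)
  obtain ⟨U, hU⟩ := exists_term _ _ hv hB
  refine ⟨U, fun n => ?_⟩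
  rw [hU]
  have hl1 : ∀ τ, 1 ≤ l n τ := fun τ => le_trans (Nat.le_add_left 1 n) (Nat.le_add_right _ _)
  have key : ∀ τ : ℕ, _ ↔ (M.run n (2 ^ (τ + 1) - 1)).1 = M.halt := fun τ =>
    (tile_digit_iff (Mach.off (l n τ)) M.rule (M.full n (l n τ)) (l n τ + 2) (s n τ) M.dead
      (Mach.one_le_off _ (hl1 τ)) (Mach.off_le _) (fun i => hos i n τ)
      (le_trans (Mach.one_le_off _ (hl1 τ) 0) (hos 0 n τ))
      (M.full_rec n (l n τ) (2 ^ (τ + 1)) le_rfl)).trans (by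
        rw [← M.final_iff n (l n τ), Nat.sub_add_cancel Nat.one_le_two_pow])
  constructor
  · rintro ⟨τ, h⟩
    exact ⟨_, (key τ).1 h⟩
  · rintro ⟨r, h⟩
    exact ⟨r, (key r).2 (M.halt_mono h (by have := hR r; omega))⟩

theorem exists_term_undecidable :
    ∃ U : Tm, ¬ ComputablePred fun n : ℕ => ∃ τ y m : ℤ, Ev n τ y U m := by
  obtain ⟨Q, ι, _, _, _, M, hM⟩ := exists_mach_undecidable
  obtain ⟨U, hU⟩ := exists_term_mach M
  exact ⟨U, by simpa only [hU] using hM⟩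

end Pool.Agent.Lib.MP_1ebeae_al
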