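import Pool.Agent.Lib.MP_1ebeae_al.Coeff

/-!
A sequence given by a recurrence with several offsets ends in a block of a fixed colour iff
one linear equation has an odd number of solutions in tile sequences.
-/

namespace Pool.Agent.Lib.MP_1ebeae_al

open Finset

theorem digits_fintype {E : Type} [Fintype E] (K : ℕ) (x : E → ℕ) :
    ∑ e : E, K ^ (Fintype.equivFin E e : ℕ) * x e
      = ∑ j ∈ range (Fintype.card E), K ^ j *
        (if h : j < Fintype.card E then x ((Fintype.equivFin E).symm ⟨j, h⟩) else 0) := by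
  rw [← Fin.sum_univ_eq_sum_range (fun j => K ^ j *
    (if h : j < Fintype.card E then x ((Fintype.equivFin E).symm ⟨j, h⟩) else 0))]
  exact Fintype.sum_equiv (Fintype.equivFin E) _ _ fun e => by simp

theorem digits_unique_fintype {E : Type} [Fintype E] (K : ℕ) (x y : E → ℕ) (hx : ∀ e, x e < K)
    (hy : ∀ e, y e < K)
    (h : ∑ e : E, K ^ (Fintype.equivFin E e : ℕ) * x e
      = ∑ e : E, K ^ (Fintype.equivFin E e : ℕ) * y e) (e : E) : x e = y e := by
  rw [digits_fintype, digits_fintype] at h
  have := digits_unique K _ _ _ (fun j hj => by rw [dif_pos hj]; exact hx _)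
    (fun j hj => by rw [dif_pos hj]; exact hy _) h (Fintype.equivFin E e) (Fin.isLt _)
  simpa using this

theorem digits_lt_fintype {E : Type} [Fintype E] (K : ℕ) (x : E → ℕ) (hx : ∀ e, x e < K) :
    ∑ e : E, K ^ (Fintype.equivFin E e : ℕ) * x e < K ^ Fintype.card E := by
  rw [digits_fintype]
  exact digits_lt K _ _ fun j hj => by rw [dif_pos hj]; exact hx _

theorem sum_two_pow (s : ℕ) : ∑ j ∈ range s, 2 ^ j + 1 = 2 ^ s := by
  induction s with
  | zero => simp
  | succ s ih => rw [sum_range_succ, pow_succ]; omega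

variable {C I : Type} [DecidableEq C]

/-- The weight of the tile `t` in the channel `e`. -/
def chW (o : I → ℕ) (F : (I → C) → C) (e : I × C) (t : I → C) : ℕ :=
  2 ^ o e.1 * (if F t = e.2 then 1 else 0) + (if t e.1 = e.2 then 0 else 1)

/-- The initial data seen through the offset `o`. -/
def mid (full : ℕ → C) (P o : ℕ) (c : C) : ℕ :=
  ∑ j ∈ range o, 2 ^ j * (if full (P - o + j) = c then 1 else 0)

/-- The final data seen through the offset `o`. -/
def fin (D : C) (o : ℕ) (c : C) : ℕ := if D = c then 2 ^ o - 1 else 0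

theorem chan_iff (o : I → ℕ) (F : (I → C) → C) (full : ℕ → C) (P s : ℕ) (D : C) (i : I) (c : C)
    (ho : o i ≤ P) (u : ℕ → I → C) :
    ∑ j ∈ range s, 2 ^ j * chW o F (i, c) (u j) + mid full P (o i) c + 1
        = 2 ^ s * (1 + fin D (o i) c) ↔
      ∑ j ∈ range (o i + s), 2 ^ j *
          (if (if P - o i + j < P then full (P - o i + j) else F (u (P - o i + j - P))) = c
            then 1 else 0)
        = ∑ j ∈ range (o i + s), 2 ^ j * (if (if j < s then u j i else D) = c then 1 else 0) := by
  have h1 : ∑ j ∈ range (o i + s), 2 ^ j *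
          (if (if P - o i + j < P then full (P - o i + j) else F (u (P - o i + j - P))) = c
            then 1 else 0)
      = mid full P (o i) c + 2 ^ o i * ∑ j ∈ range s, 2 ^ j * (if F (u j) = c then 1 else 0) := by
    rw [sum_range_add, mul_sum, mid]
    congr 1
    · refine sum_congr rfl fun j hj => ?_
      have := mem_range.1 hj
      rw [if_pos (show P - o i + j < P by omega)]
    · refine sum_congr rfl fun j _ => ?_
      rw [if_neg (show ¬ P - o i + (o i + j) < P by omega),
        show P - o i + (o i + j) - P = j by omega]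
      ring
  have h2 : ∑ j ∈ range (o i + s), 2 ^ j * (if (if j < s then u j i else D) = c then 1 else 0)
      = ∑ j ∈ range s, 2 ^ j * (if u j i = c then 1 else 0) + 2 ^ s * fin D (o i) c := by
    rw [add_comm (o i) s, sum_range_add]
    congr 1
    · refine sum_congr rfl fun j hj => ?_
      rw [if_pos (mem_range.1 hj)]
    · have : ∀ j ∈ range (o i), 2 ^ (s + j) * (if (if s + j < s then u (s + j) i else D) = c
          then 1 else 0) = 2 ^ s * (2 ^ j * (if D = c then 1 else 0)) := by
        intro j _
        rw [if_neg (show ¬ s + j < s by omega)]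
        ring
      rw [sum_congr rfl this, ← mul_sum, ← sum_mul, fin]
      have := sum_two_pow (o i)
      split_ifs
      · congr 1; omega
      · simp
  have h3 : ∑ j ∈ range s, 2 ^ j * chW o F (i, c) (u j)
      = 2 ^ o i * ∑ j ∈ range s, 2 ^ j * (if F (u j) = c then 1 else 0)
        + ∑ j ∈ range s, 2 ^ j * (if u j i = c then 0 else 1) := by
    rw [mul_sum, ← sum_add_distrib]
    exact sum_congr rfl fun j _ => by simp only [chW]; ring
  have h4 : ∑ j ∈ range s, 2 ^ j * (if u j i = c then 1 else 0)
      + ∑ j ∈ range s, 2 ^ j * (if u j i = c then 0 else 1) + 1 = 2 ^ s := by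
    rw [← sum_two_pow s, ← sum_add_distrib]
    congr 1
    exact sum_congr rfl fun j _ => by split_ifs <;> simp
  rw [h1, h2, h3, mul_add, mul_one]
  omega

theorem tile_iff (o : I → ℕ) (F : (I → C) → C) (full : ℕ → C) (P s : ℕ) (D : C)
    (ho1 : ∀ i, 1 ≤ o i) (ho : ∀ i, o i ≤ P)
    (hfull : ∀ j < s, full (P + j) = F fun i => full (P + j - o i)) (u : ℕ → I → C) :
    (∀ e : I × C, ∑ j ∈ range s, 2 ^ j * chW o F e (u j) + mid full P (o e.1) e.2 + 1
        = 2 ^ s * (1 + fin D (o e.1) e.2)) ↔
      (∀ j < s, u j = fun i => full (P + j - o i)) ∧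
        ∀ i, ∀ j < o i, full (P + s + j - o i) = D := by
  constructor
  · intro h
    have h1 : ∀ i, ∀ j < o i + s,
        (if P - o i + j < P then full (P - o i + j) else F (u (P - o i + j - P)))
          = if j < s then u j i else D := by
      intro i j hj
      have h2 := (chan_iff o F full P s D i (if j < s then u j i else D) (ho i) u).1
        (h (i, if j < s then u j i else D))
      have h3 := digits_unique 2 _ _ _ (fun j _ => by split_ifs <;> omega)
        (fun j _ => by split_ifs <;> omega) h2 j hj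
      rw [if_pos rfl] at h3
      by_contra hne
      rw [if_neg hne] at h3
      omega
    have h4 : ∀ j < s, u j = fun i => full (P + j - o i) := by
      intro j
      induction j using Nat.strong_induction_on with
      | _ j ih =>
        intro hj
        funext i
        have h5 := h1 i j (by omega)
        have := ho i
        have := ho1 i
        rw [if_pos hj] at h5
        rw [← h5]
        split_ifs with h6
        · congr 1; omega
        · rw [ih _ (by omega) (by omega), ← hfull _ (by omega)]
          congr 1; omega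
    refine ⟨h4, fun i j hj => ?_⟩
    have h5 := h1 i (s + j) (by omega)
    have := ho i
    have := ho1 i
    rw [if_neg (show ¬ s + j < s by omega)] at h5
    rw [← h5]
    split_ifs with h6
    · congr 1; omega
    · rw [h4 _ (by omega), ← hfull _ (by omega)]
      congr 1; omega
  · rintro ⟨h1, h2⟩ ⟨i, c⟩
    refine (chan_iff o F full P s D i c (ho i) u).2 (sum_congr rfl fun j hj => ?_)
    have hj' := mem_range.1 hj
    have := ho i
    have := ho1 i
    have h3 : (if P - o i + j < P then full (P - o i + j) else F (u (P - o i + j - P)))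
        = full (P - o i + j) := by
      split_ifs with h6
      · rfl
      · rw [h1 _ (by omega), ← hfull _ (by omega)]
        congr 1; omega
    have h4 : (if j < s then u j i else D) = full (P - o i + j) := by
      split_ifs with h6
      · rw [h1 _ h6]
        simp only
        congr 1; omega
      · rw [← h2 i (j - s) (by omega)]
        congr 1; omega
    rw [h3, h4]

variable [Fintype C] [Fintype I] [DecidableEq I]

/-- The total weight of a tile. -/
noncomputable def totW (o : I → ℕ) (F : (I → C) → C) (κ : ℕ) (t : I → C) : ℕ :=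
  ∑ e : I × C, (2 ^ κ) ^ (Fintype.equivFin (I × C) e : ℕ) * chW o F e t

/-- The right hand side in one channel. -/
def chD (full : ℕ → C) (P s : ℕ) (D : C) (o : ℕ) (c : C) : ℕ :=
  2 ^ s * (1 + fin D o c) - (mid full P o c + 1)

/-- The total right hand side. -/
noncomputable def totD (o : I → ℕ) (full : ℕ → C) (P s : ℕ) (D : C) (κ : ℕ) : ℕ :=
  ∑ e : I × C, (2 ^ κ) ^ (Fintype.equivFin (I × C) e : ℕ) * chD full P s D (o e.1) e.2

omit [Fintype C] in
theorem mid_lt (full : ℕ → C) (P o : ℕ) (c : C) : mid full P o c < 2 ^ o :=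
  digits_lt 2 _ _ fun j _ => by split_ifs <;> omega

omit [Fintype C] in
theorem chD_add (full : ℕ → C) (P s : ℕ) (D : C) (o : ℕ) (c : C) (ho : o ≤ s) :
    chD full P s D o c + (mid full P o c + 1) = 2 ^ s * (1 + fin D o c) := by
  have h1 := mid_lt full P o c
  have h2 : 2 ^ o ≤ 2 ^ s := Nat.pow_le_pow_right (by omega) ho
  rw [chD, mul_add]
  omega

omit [Fintype C] in
theorem chD_lt (full : ℕ → C) (P s : ℕ) (D : C) (o : ℕ) (c : C) (ho : o ≤ P) :
    chD full P s D o c < 2 ^ (s + P + 1) := by
  have h1 : 1 + fin D o c ≤ 2 ^ P := by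
    have h2 : 2 ^ o ≤ 2 ^ P := Nat.pow_le_pow_right (by omega) ho
    have := Nat.one_le_two_pow (n := o)
    rw [fin]; split_ifs <;> omega
  have h3 : 2 ^ s * (1 + fin D o c) ≤ 2 ^ s * 2 ^ P := Nat.mul_le_mul_left _ h1
  have h4 : 0 < 2 ^ s * 2 ^ P := by positivity
  rw [chD, pow_succ, pow_add]
  omega

omit [Fintype C] [Fintype I] [DecidableEq I] in
theorem chW_le (o : I → ℕ) (F : (I → C) → C) (P : ℕ) (ho : ∀ i, o i ≤ P) (e : I × C) (t : I → C) :
    chW o F e t ≤ 2 ^ (P + 1) := by
  have h2 : 2 ^ o e.1 ≤ 2 ^ P := Nat.pow_le_pow_right (by omega) (ho _)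
  have := Nat.one_le_two_pow (n := P)
  rw [chW, pow_succ]
  split_ifs <;> omega

theorem tile_odd_iff (o : I → ℕ) (F : (I → C) → C) (full : ℕ → C) (P s : ℕ) (D : C)
    (ho1 : ∀ i, 1 ≤ o i) (ho : ∀ i, o i ≤ P) (hos : ∀ i, o i ≤ s)
    (hfull : ∀ j < s, full (P + j) = F fun i => full (P + j - o i)) :
    Odd (univ.filter fun u : Fin s → (I → C) =>
        ∑ j : Fin s, 2 ^ (j : ℕ) * totW o F (s + P + 1) (u j)
          = totD o full P s D (s + P + 1)).card ↔
      ∀ i, ∀ j < o i, full (P + s + j - o i) = D := by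
  have key : ∀ u : Fin s → (I → C),
      ∑ j : Fin s, 2 ^ (j : ℕ) * totW o F (s + P + 1) (u j) = totD o full P s D (s + P + 1) ↔
      (u = fun j : Fin s => fun i => full (P + j - o i)) ∧
        ∀ i, ∀ j < o i, full (P + s + j - o i) = D := by
    intro u
    let u' : ℕ → I → C := fun j => if h : j < s then u ⟨j, h⟩ else fun _ => D
    have h1 : ∀ e, ∑ j : Fin s, 2 ^ (j : ℕ) * chW o F e (u j)
        = ∑ j ∈ range s, 2 ^ j * chW o F e (u' j) := by
      intro e
      rw [← Fin.sum_univ_eq_sum_range (fun j => 2 ^ j * chW o F e (u' j))]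
      exact sum_congr rfl fun j _ => by simp [u']
    have h2 : ∑ j : Fin s, 2 ^ (j : ℕ) * totW o F (s + P + 1) (u j)
        = ∑ e : I × C, (2 ^ (s + P + 1)) ^ (Fintype.equivFin (I × C) e : ℕ) *
          ∑ j ∈ range s, 2 ^ j * chW o F e (u' j) := by
      simp only [totW, mul_sum, ← h1]
      rw [sum_comm]
      exact sum_congr rfl fun e _ => sum_congr rfl fun j _ => by ring
    have h3 : (u = fun j : Fin s => fun i => full (P + j - o i)) ↔
        ∀ j < s, u' j = fun i => full (P + j - o i) := by
      constructor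
      · intro h j hj
        simp only [u', dif_pos hj]
        rw [h]
      · intro h
        funext j
        rw [← h j j.2]
        simp [u']
    rw [h2, h3, ← tile_iff o F full P s D ho1 ho hfull u', totD]
    constructor
    · intro h e
      have h4 := digits_unique_fintype _ _ _ (fun e => ?_)
        (fun e => chD_lt full P s D (o e.1) e.2 (ho _)) h e
      · rw [h4, add_assoc, chD_add _ _ _ _ _ _ (hos _)]
      · have h5 : ∑ j ∈ range s, 2 ^ j * chW o F e (u' j) ≤ ∑ j ∈ range s, 2 ^ j * 2 ^ (P + 1) :=
          sum_le_sum fun j _ => Nat.mul_le_mul_left _ (by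
            have := chW_le o F P ho e (u' j); omega)
        rw [← sum_mul] at h5
        have h6 := sum_two_pow s
        have h7 : 0 < 2 ^ (P + 1) := by positivity
        rw [add_assoc, pow_add, ← h6, add_mul]
        omega
    · intro h
      refine sum_congr rfl fun e _ => ?_
      have h4 := h e
      rw [← chD_add full P s D (o e.1) e.2 (hos _)] at h4
      congr 1
      omega
  by_cases hD : ∀ i, ∀ j < o i, full (P + s + j - o i) = D
  · have : (univ.filter fun u : Fin s → (I → C) =>
        ∑ j : Fin s, 2 ^ (j : ℕ) * totW o F (s + P + 1) (u j)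
          = totD o full P s D (s + P + 1)) = {fun j : Fin s => fun i => full (P + j - o i)} := by
      ext u
      simp only [mem_filter, mem_univ, true_and, key, mem_singleton]
      exact ⟨fun h => h.1, fun h => ⟨h, hD⟩⟩
    rw [this]
    simpa using hD
  · have : (univ.filter fun u : Fin s → (I → C) =>
        ∑ j : Fin s, 2 ^ (j : ℕ) * totW o F (s + P + 1) (u j)
          = totD o full P s D (s + P + 1)) = ∅ := by
      ext u
      simp only [mem_filter, mem_univ, true_and, key]
      exact ⟨fun h => absurd h.2 hD, fun h => by simp at h⟩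
    rw [this]
    simpa using hD

/-- The block size. -/
def bigE (C I : Type) [Fintype C] [Fintype I] [DecidableEq I] (s : ℕ) : ℕ :=
  (Fintype.card (I → C) + 1) * 2 ^ s

/-- The exponent of the counting digit. -/
def bigK (C I : Type) [Fintype C] [Fintype I] (P s : ℕ) : ℕ :=
  s + (s + P + 1) * Fintype.card (I × C)

/-- The binary position that is read. -/
noncomputable def posV (o : I → ℕ) (full : ℕ → C) (P s : ℕ) (D : C) : ℕ :=
  bigE C I s * (totD o full P s D (s + P + 1) + 2 ^ bigK C I P s * (2 ^ s - 1))

theorem tile_digit_iff (o : I → ℕ) (F : (I → C) → C) (full : ℕ → C) (P s : ℕ) (D : C)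
    (ho1 : ∀ i, 1 ≤ o i) (ho : ∀ i, o i ≤ P) (hos : ∀ i, o i ≤ s) (hs : 1 ≤ s)
    (hfull : ∀ j < s, full (P + j) = F fun i => full (P + j - o i)) :
    (∃ y : ℤ, (2 : ℤ) ^ (posV o full P s D + 1) ∣
        (1 - ∑ t : I → C, (2 : ℤ) ^ (bigE C I s *
          (totW o F (s + P + 1) t + 2 ^ bigK C I P s))) * y - 1 ∧
        (2 : ℤ) ^ posV o full P s D ≤ y ∧ y < (2 : ℤ) ^ (posV o full P s D + 1)) ↔
      ∀ i, ∀ j < o i, full (P + s + j - o i) = D := by
  rw [← tile_odd_iff o F full P s D ho1 ho hos hfull]
  have h0 : 0 < 2 ^ s := by positivity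
  refine digit_iff (totW o F (s + P + 1)) s _ _ _ (fun t => ?_) ?_ ?_ ?_
  · rw [bigK, pow_add, pow_mul]
    refine Nat.mul_lt_mul_of_pos_left (digits_lt_fintype _ _ fun e => ?_) h0
    have h1 := chW_le o F P ho e t
    have h2 : 2 ^ (P + 1) < 2 ^ (s + P + 1) := Nat.pow_lt_pow_right (by omega) (by omega)
    omega
  · rw [bigK, pow_add, pow_mul]
    refine lt_of_lt_of_le (digits_lt_fintype _ _ fun e => chD_lt full P s D (o e.1) e.2 (ho _)) ?_
    exact Nat.le_mul_of_pos_left _ h0
  · exact Nat.mul_pos (by omega) h0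
  · rw [bigE, pow_mul]
    exact Nat.pow_lt_pow_left Nat.lt_two_pow_self h0.ne'

end Pool.Agent.Lib.MP_1ebeae_al
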