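import Pool.Agent.Lib.MP_1ebeae_al.Terms
import Pool.Agent.Lib.MP_1ebeae_al.HNN

/-!
Systems of equations in one group variable that express definedness of a term.
-/

namespace Pool.Agent.Lib.MP_1ebeae_al

open HNNExtension

/-- Group expressions in one variable `x`, constants `a`, `t` and the parameter `a ^ n`. -/
inductive GE : Type
  | x : GE
  | a : GE
  | t : GE
  | apow : GE
  | mul (e f : GE) : GE
  | inv (e : GE) : GE

namespace GE

def ev {Γ : Type} [Group Γ] (X A T : Γ) (n : ℕ) : GE → Γ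
  | x => X
  | a => A
  | t => T
  | apow => A ^ n
  | mul e f => ev X A T n e * ev X A T n f
  | inv e => (ev X A T n e)⁻¹

/-- The exponent sum of the variable. -/
def deg : GE → ℤ
  | x => 1
  | a => 0
  | t => 0
  | apow => 0
  | mul e f => deg e + deg f
  | inv e => -deg e

theorem ev_one {Γ : Type} [Group Γ] (X : Γ) (n : ℕ) (e : GE) : ev X 1 1 n e = X ^ e.deg := by
  induction e with
  | mul e f ihe ihf => simp [ev, deg, ihe, ihf, zpow_add]
  | inv e ih => simp [ev, deg, ih]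
  | _ => simp [ev, deg]

theorem map_ev {Γ Δ : Type} [Group Γ] [Group Δ] (φ : Γ →* Δ) (X A T : Γ) (n : ℕ) (e : GE) :
    φ (ev X A T n e) = ev (φ X) (φ A) (φ T) n e := by
  induction e with
  | mul e f ihe ihf => simp [ev, ihe, ihf]
  | inv e ih => simp [ev, ih]
  | _ => simp [ev]

def conj (c e : GE) : GE := mul (mul c e) (inv c)

def b : GE := conj t a

/-- For `x = a ^ y * b ^ τ` this is `a ^ y`. -/
def Y : GE := mul (conj b x) (inv x)

/-- For `x = a ^ y * b ^ τ` this is `a ^ τ`. -/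
def T0 : GE := mul (mul (inv t) (mul (inv Y) x)) t

/-- For `x = a ^ y * b ^ τ` this is again `a ^ τ`, with exponent sum zero in `x`. -/
def T1 : GE := mul (conj b T0) (inv T0)

def u0 : GE := mul (inv T0) T1

/-- The commutator of `g⁻¹ a g` and `a`. -/
def inB (g : GE) : GE :=
  mul (mul (mul (mul (mul (inv g) a) g) a) (inv (mul (mul (inv g) a) g))) (inv a)

end GE

/-- The expression computing `a ^ (value of the term)`. -/
def Tm.W : Tm → GE
  | .vy => .Y
  | .vt => .T1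
  | .par => .apow
  | .one => .a
  | .add u v => .mul u.W v.W
  | .neg u => .inv u.W
  | .mp u v => .conj (.conj .t v.W) u.W

/-- The integrality conditions for the subterms. -/
def Tm.cons : Tm → List GE
  | .add u v => u.cons ++ v.cons
  | .neg u => u.cons
  | .mp u v => GE.inB (.conj .t (Tm.mp u v).W) :: (u.cons ++ v.cons)
  | _ => []

def Tm.sys (U : Tm) : List GE := GE.inB .x :: GE.inB (.conj .t .Y) :: U.cons

theorem deg_inB (g : GE) : g.inB.deg = 0 := by simp [GE.inB, GE.deg]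

theorem deg_u0 : GE.u0.deg = -1 := by decide

theorem deg_cons (U : Tm) : ∀ e ∈ U.cons, e.deg = 0 := by
  induction U with
  | add u v ihu ihv =>
    intro e he
    rcases List.mem_append.1 he with h | h
    · exact ihu e h
    · exact ihv e h
  | neg u ih => exact ih
  | mp u v ihu ihv =>
    intro e he
    rcases List.mem_cons.1 he with rfl | he
    · exact deg_inB _
    · rcases List.mem_append.1 he with h | h
      · exact ihu e h
      · exact ihv e h
  | _ => simp [Tm.cons]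

theorem deg_sys (U : Tm) : ∀ e ∈ U.sys, e.deg = 0 := by
  intro e he
  rcases List.mem_cons.1 he with rfl | he
  · exact deg_inB _
  rcases List.mem_cons.1 he with rfl | he
  · exact deg_inB _
  exact deg_cons U e he

section Complete

theorem of_pow_nat (n : ℕ) : (⟨1, 0⟩ : BS) ^ n = ⟨n, 0⟩ := by
  induction n with
  | zero => rfl
  | succ n ih => rw [pow_succ, ih]; ext <;> simp

theorem int_of_inB (X : HH) (n : ℕ) (e : GE) (q : ℚ)
    (he : GE.ev X (of ⟨1, 0⟩) t n e = of ⟨q, 0⟩)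
    (h : GE.ev X (of ⟨1, 0⟩) t n (GE.inB (.conj .t e)) = 1) : ∃ m : ℤ, q = m := by
  obtain ⟨β, hβ⟩ := mem_base_of_comm (GE.ev X (of ⟨1, 0⟩) t n (.conj .t e)) h
  refine int_of_mem_base q β ?_
  rw [← hβ, ← he]
  rfl

theorem complete (X : HH) (n : ℕ) (U : Tm)
    (h : ∀ e ∈ U.sys, GE.ev X (of ⟨1, 0⟩) t n e = 1) : ∃ τ y m : ℤ, Ev n τ y U m := by
  obtain ⟨⟨q, τ⟩, rfl⟩ := mem_base_of_comm X (h (GE.inB .x) (by simp [Tm.sys]))
  have hb : GE.ev (of ⟨q, τ⟩ : HH) (of ⟨1, 0⟩) t n .b = of ⟨0, 1⟩ := by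
    have := t_conj 1
    simpa [GE.b, GE.conj, GE.ev] using this
  have hY : GE.ev (of ⟨q, τ⟩ : HH) (of ⟨1, 0⟩) t n .Y = of ⟨q, 0⟩ := by
    simp only [GE.Y, GE.conj, GE.ev, hb, ← map_mul, ← map_inv]
    congr 1
    ext
    · simp only [BS.mul_u, BS.mul_k, BS.inv_u, BS.inv_k]
      rw [show (1 + τ + -1 : ℤ) = τ by ring, mul_neg, mul_neg, ← mul_assoc, ← mul_assoc,
        ← zpow_add₀ (a := (2 : ℚ)) (by norm_num) τ (-τ)]
      simp
      ring
    · simp
  obtain ⟨y, rfl⟩ := int_of_inB _ n _ q hY (h _ (by simp [Tm.sys]))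
  have hT0 : GE.ev (of ⟨y, τ⟩ : HH) (of ⟨1, 0⟩) t n .T0 = of ⟨τ, 0⟩ := by
    have h1 : (⟨y, 0⟩ : BS)⁻¹ * ⟨y, τ⟩ = ⟨0, τ⟩ := by ext <;> simp
    simp only [GE.T0, GE.ev, hY, ← map_mul, ← map_inv, h1, ← t_conj]
    group
  have hT1 : GE.ev (of ⟨y, τ⟩ : HH) (of ⟨1, 0⟩) t n .T1 = of ⟨τ, 0⟩ := by
    simp only [GE.T1, GE.conj, GE.ev, hb, hT0, ← map_mul, ← map_inv]
    congr 1
    ext
    · simp
      ring
    · simp
  have key : ∀ u : Tm, (∀ e ∈ u.cons, GE.ev (of ⟨y, τ⟩ : HH) (of ⟨1, 0⟩) t n e = 1) →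
      ∃ m : ℤ, Ev n τ y u m ∧ GE.ev (of ⟨y, τ⟩ : HH) (of ⟨1, 0⟩) t n u.W = of ⟨m, 0⟩ := by
    intro u
    induction u with
    | vy => exact fun _ => ⟨y, rfl, hY⟩
    | vt => exact fun _ => ⟨τ, rfl, hT1⟩
    | par => exact fun _ => ⟨n, rfl, by simp [Tm.W, GE.ev, ← map_pow, of_pow_nat]⟩
    | one => exact fun _ => ⟨1, rfl, by simp [Tm.W, GE.ev]⟩
    | add u v ihu ihv =>
      intro h
      obtain ⟨m1, e1, f1⟩ := ihu fun e he => h e (List.mem_append_left _ he)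
      obtain ⟨m2, e2, f2⟩ := ihv fun e he => h e (List.mem_append_right _ he)
      refine ⟨m1 + m2, ⟨m1, m2, e1, e2, rfl⟩, ?_⟩
      simp only [Tm.W, GE.ev, f1, f2, ← map_mul]
      congr 1
      ext <;> simp
    | neg u ih =>
      intro h
      obtain ⟨m1, e1, f1⟩ := ih h
      refine ⟨-m1, ⟨m1, e1, rfl⟩, ?_⟩
      simp only [Tm.W, GE.ev, f1, ← map_inv]
      congr 1
      ext <;> simp
    | mp u v ihu ihv =>
      intro h
      obtain ⟨m1, e1, f1⟩ := ihu fun e he =>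
        h e (List.mem_cons_of_mem _ (List.mem_append_left _ he))
      obtain ⟨m2, e2, f2⟩ := ihv fun e he =>
        h e (List.mem_cons_of_mem _ (List.mem_append_right _ he))
      have h1 : GE.ev (of ⟨y, τ⟩ : HH) (of ⟨1, 0⟩) t n (Tm.mp u v).W
          = of ⟨m1 * 2 ^ m2, 0⟩ := by
        simp only [Tm.W, GE.conj, GE.ev, f1, f2, t_conj, ← map_mul, ← map_inv]
        congr 1
        ext
        · simp [mul_comm]
        · simp
      obtain ⟨m, hm⟩ := int_of_inB _ n _ _ h1 (h _ List.mem_cons_self)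
      exact ⟨m, ⟨m1, m2, e1, e2, hm.symm⟩, by rw [h1, hm]⟩
  obtain ⟨m, hm, -⟩ := key U fun e he => h e (by simp [Tm.sys, he])
  exact ⟨τ, y, m, hm⟩

end Complete

section Sound

variable {Γ : Type} [Group Γ] {A B : Γ}

theorem conj_pow_nat (h : B * A * B⁻¹ = A ^ 2) (k : ℕ) (m : ℤ) :
    B ^ k * A ^ m * (B ^ k)⁻¹ = A ^ (m * 2 ^ k) := by
  induction k generalizing m with
  | zero => simp
  | succ k ih =>
    have h1 : B * A ^ (m * 2 ^ k) * B⁻¹ = A ^ (m * 2 ^ (k + 1)) := by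
      rw [← conj_zpow, h, ← zpow_natCast, ← zpow_mul]
      congr 1
      push_cast
      ring
    rw [← h1, ← ih, pow_succ']
    group

theorem conj_pow_int (h : B * A * B⁻¹ = A ^ 2) (k m m' : ℤ) (e : (m' : ℚ) = m * 2 ^ k) :
    B ^ k * A ^ m * (B ^ k)⁻¹ = A ^ m' := by
  obtain ⟨k, rfl | rfl⟩ := Int.eq_nat_or_neg k
  · have : m' = m * 2 ^ k := by
      rw [zpow_natCast] at e
      exact_mod_cast e
    rw [this, zpow_natCast, conj_pow_nat h]
  · have : m = m' * 2 ^ k := by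
      rw [zpow_neg, zpow_natCast, eq_mul_inv_iff_mul_eq₀ (by positivity)] at e
      exact_mod_cast e.symm
    rw [this, ← conj_pow_nat h, zpow_neg, zpow_natCast]
    group

theorem comm_conj (h : B * A * B⁻¹ = A ^ 2) (y k : ℤ) :
    ((A ^ y * B ^ k)⁻¹ * A * (A ^ y * B ^ k)) * A *
      ((A ^ y * B ^ k)⁻¹ * A * (A ^ y * B ^ k))⁻¹ * A⁻¹ = 1 := by
  obtain ⟨k, rfl | rfl⟩ := Int.eq_nat_or_neg k
  · have h1 := conj_pow_nat h k 1
    have h2 : A = (B ^ k)⁻¹ * A ^ ((1 : ℤ) * 2 ^ k) * B ^ k := by rw [← h1]; group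
    calc _ = ((B ^ k)⁻¹ * A * B ^ k) * A * ((B ^ k)⁻¹ * A * B ^ k)⁻¹ * A⁻¹ := by group
      _ = ((B ^ k)⁻¹ * A * B ^ k) * ((B ^ k)⁻¹ * A ^ ((1 : ℤ) * 2 ^ k) * B ^ k) *
          ((B ^ k)⁻¹ * A * B ^ k)⁻¹ * ((B ^ k)⁻¹ * A ^ ((1 : ℤ) * 2 ^ k) * B ^ k)⁻¹ := by
          rw [← h2]
      _ = 1 := by group
  · have h1 := conj_pow_nat h k 1
    calc _ = (B ^ k * A ^ (1 : ℤ) * (B ^ k)⁻¹) * A * (B ^ k * A ^ (1 : ℤ) * (B ^ k)⁻¹)⁻¹ * A⁻¹ := by
          group
      _ = 1 := by rw [h1]; group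

theorem sound {T : Γ} (h : (T * A * T⁻¹) * A * (T * A * T⁻¹)⁻¹ = A ^ 2) (n : ℕ) (U : Tm)
    (τ y m : ℤ) (hU : Ev n τ y U m) :
    GE.ev (A ^ y * (T * A * T⁻¹) ^ τ) A T n .u0 = 1 ∧
      ∀ e ∈ U.sys, GE.ev (A ^ y * (T * A * T⁻¹) ^ τ) A T n e = 1 := by
  set B := T * A * T⁻¹ with hB
  set X := A ^ y * B ^ τ with hX
  have hb : GE.ev X A T n .b = B := rfl
  have h2 : ∀ m : ℤ, B * A ^ m * B⁻¹ * (A ^ m)⁻¹ = A ^ m := by
    intro m
    have := conj_pow_nat h 1 m
    rw [pow_one] at this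
    rw [this]
    group
  have hY : GE.ev X A T n .Y = A ^ y := by
    simp only [GE.Y, GE.conj, GE.ev, hb]
    rw [← h2 y, hX]
    group
  have hT0 : GE.ev X A T n .T0 = A ^ τ := by
    simp only [GE.T0, GE.ev, hY]
    rw [hX, hB, conj_zpow]
    group
  have hT1 : GE.ev X A T n .T1 = A ^ τ := by
    simp only [GE.T1, GE.conj, GE.ev, hb, hT0, h2]
  have hin : ∀ (e : GE) (m : ℤ), GE.ev X A T n e = A ^ m →
      GE.ev X A T n (GE.inB (.conj .t e)) = 1 := by
    intro e m he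
    have h3 : GE.ev X A T n (.conj .t e) = A ^ (0 : ℤ) * B ^ m := by
      simp only [GE.conj, GE.ev, he, hB, conj_zpow, zpow_zero, one_mul]
    simp only [GE.inB, GE.ev, h3]
    exact comm_conj h 0 m
  have key : ∀ (u : Tm) (m : ℤ), Ev n τ y u m →
      GE.ev X A T n u.W = A ^ m ∧ ∀ e ∈ u.cons, GE.ev X A T n e = 1 := by
    intro u
    induction u with
    | vy => rintro m rfl; exact ⟨hY, by simp [Tm.cons]⟩
    | vt => rintro m rfl; exact ⟨hT1, by simp [Tm.cons]⟩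
    | par => rintro m rfl; exact ⟨by simp [Tm.W, GE.ev], by simp [Tm.cons]⟩
    | one => rintro m rfl; exact ⟨by simp [Tm.W, GE.ev], by simp [Tm.cons]⟩
    | add u v ihu ihv =>
      rintro m ⟨m1, m2, e1, e2, rfl⟩
      obtain ⟨f1, g1⟩ := ihu m1 e1
      obtain ⟨f2, g2⟩ := ihv m2 e2
      refine ⟨by simp only [Tm.W, GE.ev, f1, f2, zpow_add], fun e he => ?_⟩
      rcases List.mem_append.1 he with h | h
      · exact g1 e h
      · exact g2 e h
    | neg u ih =>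
      rintro m ⟨m1, e1, rfl⟩
      obtain ⟨f1, g1⟩ := ih m1 e1
      exact ⟨by simp only [Tm.W, GE.ev, f1, zpow_neg], g1⟩
    | mp u v ihu ihv =>
      rintro m ⟨m1, m2, e1, e2, e3⟩
      obtain ⟨f1, g1⟩ := ihu m1 e1
      obtain ⟨f2, g2⟩ := ihv m2 e2
      have h4 : GE.ev X A T n (Tm.mp u v).W = A ^ m := by
        simp only [Tm.W, GE.conj, GE.ev, f1, f2]
        rw [← conj_zpow (a := T) (b := A) (i := m2), ← hB, conj_pow_int h m2 m1 m e3]
      refine ⟨h4, fun e he => ?_⟩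
      rcases List.mem_cons.1 he with rfl | he
      · exact hin _ _ h4
      · rcases List.mem_append.1 he with h | h
        · exact g1 e h
        · exact g2 e h
  refine ⟨by simp only [GE.u0, GE.ev, hT0, hT1, inv_mul_cancel], fun e he => ?_⟩
  rcases List.mem_cons.1 he with rfl | he
  · exact comm_conj h y τ
  rcases List.mem_cons.1 he with rfl | he
  · exact hin _ _ hY
  exact (key U m hU).2 e he

end Sound

end Pool.Agent.Lib.MP_1ebeae_al
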