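import Pool.Agent.Lib.MP_1ebeae_al.Words

/-!
A system of equations in one variable becomes one equation after a free letter `z` is added:
the proof maps to the wreath product with `ℤ`.
-/

namespace Pool.Agent.Lib.MP_1ebeae_al

/-- The unrestricted wreath product of `H` with `ℤ`. -/
@[ext] structure Wr (H : Type) where
  f : ℤ → H
  k : ℤ

namespace Wr

variable {H : Type} [Group H]

instance : Mul (Wr H) := ⟨fun x y => ⟨fun i => x.f i * y.f (i - x.k), x.k + y.k⟩⟩
instance : One (Wr H) := ⟨⟨fun _ => 1, 0⟩⟩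
instance : Inv (Wr H) := ⟨fun x => ⟨fun i => (x.f (i + x.k))⁻¹, -x.k⟩⟩

@[simp] theorem mul_f (x y : Wr H) (i : ℤ) : (x * y).f i = x.f i * y.f (i - x.k) := rfl
@[simp] theorem mul_k (x y : Wr H) : (x * y).k = x.k + y.k := rfl
@[simp] theorem one_f (i : ℤ) : (1 : Wr H).f i = 1 := rfl
@[simp] theorem one_k : (1 : Wr H).k = 0 := rfl
@[simp] theorem inv_f (x : Wr H) (i : ℤ) : (x⁻¹).f i = (x.f (i + x.k))⁻¹ := rfl
@[simp] theorem inv_k (x : Wr H) : (x⁻¹).k = -x.k := rfl

instance : Group (Wr H) :=
  Group.ofLeftAxioms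
    (fun x y z => by
      ext i
      · simp [mul_assoc, sub_sub]
      · simp [add_assoc])
    (fun x => by ext <;> simp)
    (fun x => by ext <;> simp)

/-- The copy of `H` at position `0`. -/
def incl : H →* Wr H where
  toFun g := ⟨fun i => if i = 0 then g else 1, 0⟩
  map_one' := by ext <;> simp
  map_mul' g h := by
    ext i
    · by_cases hi : i = 0 <;> simp [hi]
    · simp

/-- The shift. -/
def z : Wr H := ⟨fun _ => 1, 1⟩

/-- The restricted wreath product. -/
def fs : Subgroup (Wr H) where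
  carrier := {x | ∃ N : ℤ, ∀ i, N < |i| → x.f i = 1}
  one_mem' := ⟨0, fun _ _ => rfl⟩
  mul_mem' := by
    rintro x y ⟨N, hN⟩ ⟨M, hM⟩
    refine ⟨max N (M + |x.k|), fun i hi => ?_⟩
    have h1 := abs_sub_abs_le_abs_sub i x.k
    rw [mul_f, hN i (by omega), hM _ (by omega), one_mul]
  inv_mem' := by
    rintro x ⟨N, hN⟩
    refine ⟨N + |x.k|, fun i hi => ?_⟩
    have h1 := abs_sub_abs_le_abs_add i x.k
    rw [inv_f, hN _ (by omega), inv_one]

theorem incl_mem (g : H) : incl g ∈ fs :=
  ⟨0, fun i hi => if_neg (by rintro rfl; simp at hi)⟩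

theorem z_mem : (z : Wr H) ∈ fs := ⟨0, fun _ _ => rfl⟩

theorem ev_k (X : Wr H) (A T : H) (n : ℕ) (e : GE) :
    (GE.ev X (incl A) (incl T) n e).k = e.deg * X.k := by
  induction e with
  | mul e f ihe ihf => simp [GE.ev, GE.deg, ihe, ihf, add_mul]
  | inv e ih => simp [GE.ev, GE.deg, ih]
  | apow => simp only [GE.ev, GE.deg, ← map_pow]; simp [incl]
  | _ => simp [GE.ev, GE.deg, incl]

theorem ev_f (X : Wr H) (hX : X.k = 0) (A T : H) (n : ℕ) (e : GE) (i : ℤ) :
    (GE.ev X (incl A) (incl T) n e).f i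
      = GE.ev (X.f i) (if i = 0 then A else 1) (if i = 0 then T else 1) n e := by
  induction e with
  | mul e f ihe ihf => simp [GE.ev, ihe, ihf, ev_k, hX]
  | inv e ih => simp [GE.ev, ih, ev_k, hX]
  | apow =>
    simp only [GE.ev, ← map_pow]
    by_cases hi : i = 0 <;> simp [incl, hi]
  | _ => simp [GE.ev, incl]

end Wr

/-- The product `e₀ * z e₁ z⁻¹ * z² e₂ z⁻² * ⋯`, ending with a conjugate of `u0`. -/
def chain {Γ : Type} [Group Γ] (X A T Z : Γ) (n : ℕ) : List GE → Γ
  | [] => GE.ev X A T n .u0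
  | e :: L => GE.ev X A T n e * (Z * chain X A T Z n L * Z⁻¹)

theorem map_chain {Γ Δ : Type} [Group Γ] [Group Δ] (φ : Γ →* Δ) (X A T Z : Γ) (n : ℕ)
    (L : List GE) : φ (chain X A T Z n L) = chain (φ X) (φ A) (φ T) (φ Z) n L := by
  induction L with
  | nil => exact GE.map_ev φ X A T n _
  | cons e L ih => simp [chain, GE.map_ev, ih]

theorem chain_eq_one {Γ : Type} [Group Γ] (X A T Z : Γ) (n : ℕ) (L : List GE)
    (h0 : GE.ev X A T n .u0 = 1) (h : ∀ e ∈ L, GE.ev X A T n e = 1) :
    chain X A T Z n L = 1 := by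
  induction L with
  | nil => exact h0
  | cons e L ih =>
    rw [chain, h e List.mem_cons_self, ih fun e he => h e (List.mem_cons_of_mem _ he)]
    simp

section

variable {H : Type} [Group H] (X : Wr H) (A T : H) (n : ℕ)

theorem chain_k (L : List GE) (hL : ∀ e ∈ L, e.deg = 0) :
    (chain X (Wr.incl A) (Wr.incl T) Wr.z n L).k = -X.k := by
  induction L with
  | nil => simp [chain, Wr.ev_k, deg_u0]
  | cons e L ih =>
    simp [chain, Wr.ev_k, hL e List.mem_cons_self,
      ih fun e he => hL e (List.mem_cons_of_mem _ he)]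

theorem chain_cons_f (hX : X.k = 0) (e : GE) (L : List GE) (q : ℤ) :
    (chain X (Wr.incl A) (Wr.incl T) Wr.z n (e :: L)).f q
      = GE.ev (X.f q) (if q = 0 then A else 1) (if q = 0 then T else 1) n e *
        (chain X (Wr.incl A) (Wr.incl T) Wr.z n L).f (q - 1) := by
  simp [chain, Wr.ev_f X hX, Wr.ev_k, hX, Wr.z]

theorem chain_out (hX : X.k = 0) (L : List GE) (hL : ∀ e ∈ L, e.deg = 0) (q : ℤ)
    (hq : q < 0 ∨ (L.length : ℤ) < q) :
    (chain X (Wr.incl A) (Wr.incl T) Wr.z n L).f q = (X.f (q - L.length))⁻¹ := by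
  induction L generalizing q with
  | nil =>
    have : q ≠ 0 := by simp at hq; omega
    simp [chain, Wr.ev_f X hX, this, GE.ev_one, deg_u0]
  | cons e L ih =>
    simp only [List.length_cons, Nat.cast_add, Nat.cast_one] at hq ⊢
    have : q ≠ 0 := by omega
    rw [chain_cons_f X A T n hX, if_neg this, if_neg this, GE.ev_one, hL e List.mem_cons_self,
      ih (fun e he => hL e (List.mem_cons_of_mem _ he)) _ (by omega), zpow_zero, one_mul]
    congr 2
    ring

theorem chain_in (hX : X.k = 0) (hf : ∀ i, i < 0 → X.f i = 1) (L : List GE)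
    (hL : ∀ e ∈ L, e.deg = 0)
    (h : ∀ q : ℤ, 0 ≤ q → q < L.length → (chain X (Wr.incl A) (Wr.incl T) Wr.z n L).f q = 1) :
    ∀ e ∈ L, GE.ev (X.f 0) A T n e = 1 := by
  induction L with
  | nil => simp
  | cons e L ih =>
    have hL' : ∀ e ∈ L, e.deg = 0 := fun e he => hL e (List.mem_cons_of_mem _ he)
    simp only [List.length_cons, Nat.cast_add, Nat.cast_one] at h
    intro e' he'
    rcases List.mem_cons.1 he' with rfl | he'
    · have h1 := h 0 le_rfl (by omega)
      rw [chain_cons_f X A T n hX, chain_out X A T n hX L hL' _ (by omega),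
        hf (0 - 1 - L.length) (by omega)] at h1
      simpa using h1
    · refine ih hL' (fun q h1 h2 => ?_) e' he'
      have h3 := h (q + 1) (by omega) (by omega)
      have : q + 1 ≠ 0 := by omega
      rw [chain_cons_f X A T n hX, if_neg this, if_neg this, GE.ev_one,
        hL e List.mem_cons_self] at h3
      simpa using h3

theorem system_of_chain (hfs : X ∈ Wr.fs) (L : List GE) (hL : ∀ e ∈ L, e.deg = 0)
    (h : chain X (Wr.incl A) (Wr.incl T) Wr.z n (.u0 :: L) = 1) :
    ∀ e ∈ L, GE.ev (X.f 0) A T n e = 1 := by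
  have hX : X.k = 0 := by
    have := congrArg Wr.k h
    simp [chain, Wr.ev_k, deg_u0, chain_k X A T n L hL] at this
    omega
  have h1 : ∀ q : ℤ, q ≠ 0 →
      (chain X (Wr.incl A) (Wr.incl T) Wr.z n L).f (q - 1) = X.f q := by
    intro q hq
    have := congrArg (fun w => Wr.f w q) h
    simp only [chain_cons_f X A T n hX, if_neg hq, GE.ev_one, deg_u0, Wr.one_f] at this
    rw [zpow_neg_one, inv_mul_eq_one] at this
    exact this.symm
  obtain ⟨N, hN⟩ := hfs
  have hneg : ∀ (d : ℕ) (i : ℤ), i < 0 → N < -i + d → X.f i = 1 := by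
    intro d
    induction d with
    | zero => exact fun i h1 h2 => hN i (by rw [abs_of_neg h1]; omega)
    | succ d ih =>
      intro i h2 h3
      rw [← h1 i h2.ne, chain_out X A T n hX L hL _ (by omega), ih _ (by omega) (by omega),
        inv_one]
  have hpos : ∀ (d : ℕ) (i : ℤ), 0 < i → N < i + d → X.f i = 1 := by
    intro d
    induction d with
    | zero => exact fun i h1 h2 => hN i (by rw [abs_of_pos h1]; omega)
    | succ d ih =>
      intro i h2 h3
      have h4 := h1 (i + L.length + 1) (by omega)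
      rw [chain_out X A T n hX L hL _ (by omega), ih (i + L.length + 1) (by omega) (by omega),
        show i + L.length + 1 - 1 - L.length = i by ring] at h4
      simpa using h4
  refine chain_in X A T n hX (fun i hi => hneg (N.toNat + 1) i hi (by omega)) L hL
    fun q h2 _ => ?_
  have h3 := h1 (q + 1) (by omega)
  rw [add_sub_cancel_right] at h3
  rw [h3]
  exact hpos (N.toNat + 1) _ (by omega) (by omega)

end

end Pool.Agent.Lib.MP_1ebeae_al
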